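import Pool.Agent.Lib.MP_21a028_co.Path

/-!
Extension of the history of the colouring process by one step.
-/

namespace Pool.Agent.Lib.MP_21a028_co

open Finset

namespace Path

variable {V : Type} {k : ℕ}

/-- Conditions under which a history can be extended by one step. -/
structure IsExt (P : Path V k) (C : Fin 3 → Finset V) (D : Set (Fin k × Finset V))
    (p : V → Finset (Fin k)) (Jn : Fin 3 → Fin 3 → Prop) : Prop where
  J_symm : ∀ a b, Jn a b → Jn b a
  J_ne : ∀ a b, Jn a b → a ≠ b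
  J_uniq : ∀ a b b', Jn a b → Jn a b' → b = b'
  J_nonempty : ∀ a b, Jn a b → (P.cls P.n a).Nonempty
  disj : ∀ i j, i ≠ j → Disjoint (C i) (C j)
  par : ∀ i, ∃ j, C i ⊆ P.cls P.n j
  mono : ∀ i, ∀ x ∈ C i, P.prov P.n x ⊆ p x
  provCls : ∀ i, ∀ x ∈ C i, ∀ y ∈ C i, p x = p y
  origin : ∀ q ∈ D, ∀ i, ∀ x ∈ C i, x ∈ q.2 → q ∈ P.dem P.n ∨ ∃ a b, Jn a b ∧
    q.2 = P.cls P.n b ∧ ∀ w ∈ P.cls P.n a, q.1 ∉ P.prov P.n w ∧ q.1 ∈ p w
  big : ∀ a b, Jn a b → k < (P.cls P.n b).card → ∀ w ∈ P.cls P.n a, p w = univ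
  rej : ∀ a b, Jn a b → ∀ w ∈ P.cls P.n a, p w = P.prov P.n w → P.prov P.n w ≠ univ →
    ∃ q ∈ P.dem P.n, P.cls P.n b ⊆ q.2 ∧ q.1 ∈ P.prov P.n w ∧
      ∀ i, P.cls P.n i ⊆ q.2 → (P.cls P.n i).card ≤ k
  irr : ∀ a b x y, Jn a b → x ∈ P.cls P.n a → y ∈ P.cls P.n b → ¬ P.Cov x y

/-- The history extended by one step. -/
noncomputable def ext (P : Path V k) (C : Fin 3 → Finset V) (D : Set (Fin k × Finset V))
    (p : V → Finset (Fin k)) (Jn : Fin 3 → Fin 3 → Prop) (h : P.IsExt C D p Jn) : Path V k where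
  n := P.n + 1
  cls := fun t => if t ≤ P.n then P.cls t else C
  dem := fun t => if t ≤ P.n then P.dem t else D
  prov := fun t => if t ≤ P.n then P.prov t else p
  J := fun t a b => P.J t a b ∨ (t = P.n ∧ Jn a b)
  J_symm := by
    rintro t a b (h1 | ⟨h1, h2⟩)
    · exact Or.inl (P.J_symm _ _ _ h1)
    · exact Or.inr ⟨h1, h.J_symm _ _ h2⟩
  J_ne := by
    rintro t a b (h1 | ⟨h1, h2⟩)
    · exact P.J_ne _ _ _ h1
    · exact h.J_ne _ _ h2
  J_uniq := by
    rintro t a b b' (h1 | ⟨h1, h2⟩) (h3 | ⟨h3, h4⟩)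
    · exact P.J_uniq _ _ _ _ h1 h3
    · have := P.J_lt _ _ _ h1; omega
    · have := P.J_lt _ _ _ h3; omega
    · exact h.J_uniq _ _ _ h2 h4
  J_lt := by
    rintro t a b (h1 | ⟨h1, h2⟩)
    · have := P.J_lt _ _ _ h1; omega
    · omega
  J_nonempty := by
    rintro t a b (h1 | ⟨rfl, h2⟩)
    · have := P.J_lt _ _ _ h1
      rw [if_pos (by omega)]
      exact P.J_nonempty _ _ _ h1
    · rw [if_pos le_rfl]
      exact h.J_nonempty _ _ h2
  disj := by
    intro t ht i j hij
    by_cases h1 : t ≤ P.n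
    · simp only [if_pos h1]
      exact P.disj t h1 i j hij
    · simp only [if_neg h1]
      exact h.disj i j hij
  par := by
    intro t ht i
    by_cases h1 : t + 1 ≤ P.n
    · simp only [if_pos h1, if_pos (show t ≤ P.n by omega)]
      exact P.par t (by omega) i
    · have h2 : t = P.n := by omega
      subst h2
      simp only [if_neg h1, if_pos le_rfl]
      exact h.par i
  mono := by
    intro t ht i x hx
    by_cases h1 : t + 1 ≤ P.n
    · simp only [if_pos h1, if_pos (show t ≤ P.n by omega)] at hx ⊢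
      exact P.mono t (by omega) i x hx
    · have h2 : t = P.n := by omega
      subst h2
      simp only [if_neg h1, if_pos le_rfl] at hx ⊢
      exact h.mono i x hx
  provCls := by
    intro t ht i x hx y hy
    by_cases h1 : t ≤ P.n
    · simp only [if_pos h1] at hx hy ⊢
      exact P.provCls t h1 i x hx y hy
    · simp only [if_neg h1] at hx hy ⊢
      exact h.provCls i x hx y hy
  origin := by
    have old : ∀ t ≤ P.n, ∀ q ∈ P.dem t, ∀ i, ∀ x ∈ P.cls t i, x ∈ q.2 → ∃ f < t, ∃ a b,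
        (P.J f a b ∨ (f = P.n ∧ Jn a b)) ∧ q.2 = (if f ≤ P.n then P.cls f else C) b ∧
        ∀ w ∈ (if f ≤ P.n then P.cls f else C) a, q.1 ∉ (if f ≤ P.n then P.prov f else p) w ∧
          q.1 ∈ (if f + 1 ≤ P.n then P.prov (f + 1) else p) w := by
      intro t ht q hq i x hx hxq
      obtain ⟨f, hf, a, b, hJ, h1, h2⟩ := P.origin t ht q hq i x hx hxq
      refine ⟨f, hf, a, b, Or.inl hJ, ?_, ?_⟩
      · rw [if_pos (by omega)]; exact h1
      · rw [if_pos (show f ≤ P.n by omega), if_pos (show f ≤ P.n by omega),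
          if_pos (show f + 1 ≤ P.n by omega)]
        exact h2
    intro t ht q hq i x hx hxq
    by_cases h1 : t ≤ P.n
    · simp only [if_pos h1] at hq hx
      exact old t h1 q hq i x hx hxq
    · simp only [if_neg h1] at hq hx
      rcases h.origin q hq i x hx hxq with h2 | ⟨a, b, hJ, h2, h3⟩
      · obtain ⟨j, hj⟩ := h.par i
        obtain ⟨f, hf, rest⟩ := old P.n le_rfl q h2 j x (hj hx) hxq
        exact ⟨f, by omega, rest⟩
      · refine ⟨P.n, by omega, a, b, Or.inr ⟨rfl, hJ⟩, ?_, ?_⟩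
        · rw [if_pos le_rfl]; exact h2
        · rw [if_pos le_rfl, if_pos le_rfl, if_neg (by omega)]
          exact h3
  big := by
    rintro t a b (h1 | ⟨rfl, h2⟩) hk w hw
    · have := P.J_lt _ _ _ h1
      rw [if_pos (by omega)] at hk hw
      rw [if_pos (by omega)]
      exact P.big _ _ _ h1 hk w hw
    · rw [if_pos le_rfl] at hk hw
      rw [if_neg (by omega)]
      exact h.big _ _ h2 hk w hw
  rej := by
    rintro t a b (h1 | ⟨rfl, h2⟩) w hw hp hne
    · have := P.J_lt _ _ _ h1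
      simp only [if_pos (show t ≤ P.n by omega), if_pos (show t + 1 ≤ P.n by omega)] at hw hp hne ⊢
      exact P.rej _ _ _ h1 w hw hp hne
    · simp only [if_pos le_rfl, if_neg (show ¬ P.n + 1 ≤ P.n by omega)] at hw hp hne ⊢
      exact h.rej _ _ h2 w hw hp hne
  irr := by
    rintro t t' a b a' b' x y htt (h1 | ⟨rfl, h2⟩) (h3 | ⟨rfl, h4⟩) hx hy hx' hy'
    · have := P.J_lt _ _ _ h3
      simp only [if_pos (show t ≤ P.n by omega), if_pos (show t' ≤ P.n by omega)] at hx hy hx' hy'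
      exact P.irr _ _ _ _ _ _ x y htt h1 h3 hx hy hx' hy'
    · simp only [if_pos (show t ≤ P.n by omega), if_pos le_rfl] at hx hy hx' hy'
      exact h.irr _ _ x y h4 hx' hy' ⟨t, a, b, h1, hx, hy⟩
    · have := P.J_lt _ _ _ h3
      omega
    · omega

variable {P : Path V k} {C : Fin 3 → Finset V} {D : Set (Fin k × Finset V)}
  {p : V → Finset (Fin k)} {Jn : Fin 3 → Fin 3 → Prop} (h : P.IsExt C D p Jn)

lemma ext_cls : (P.ext C D p Jn h).cls (P.ext C D p Jn h).n = C := by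
  show (if P.n + 1 ≤ P.n then P.cls (P.n + 1) else C) = C
  rw [if_neg (by omega)]

lemma ext_dem : (P.ext C D p Jn h).dem (P.ext C D p Jn h).n = D := by
  show (if P.n + 1 ≤ P.n then P.dem (P.n + 1) else D) = D
  rw [if_neg (by omega)]

lemma ext_prov : (P.ext C D p Jn h).prov (P.ext C D p Jn h).n = p := by
  show (if P.n + 1 ≤ P.n then P.prov (P.n + 1) else p) = p
  rw [if_neg (by omega)]

lemma ext_cov (x y : V) : (P.ext C D p Jn h).Cov x y ↔
    P.Cov x y ∨ ∃ a b, Jn a b ∧ x ∈ P.cls P.n a ∧ y ∈ P.cls P.n b := by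
  constructor
  · rintro ⟨t, a, b, h1 | ⟨rfl, h2⟩, hx, hy⟩
    · have := P.J_lt _ _ _ h1
      change x ∈ (if t ≤ P.n then P.cls t else C) a at hx
      change y ∈ (if t ≤ P.n then P.cls t else C) b at hy
      rw [if_pos (by omega)] at hx hy
      exact Or.inl ⟨t, a, b, h1, hx, hy⟩
    · change x ∈ (if P.n ≤ P.n then P.cls P.n else C) a at hx
      change y ∈ (if P.n ≤ P.n then P.cls P.n else C) b at hy
      rw [if_pos le_rfl] at hx hy
      exact Or.inr ⟨a, b, h2, hx, hy⟩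
  · rintro (⟨t, a, b, h1, hx, hy⟩ | ⟨a, b, h2, hx, hy⟩)
    · have := P.J_lt _ _ _ h1
      refine ⟨t, a, b, Or.inl h1, ?_, ?_⟩
      · change x ∈ (if t ≤ P.n then P.cls t else C) a
        rw [if_pos (by omega)]; exact hx
      · change y ∈ (if t ≤ P.n then P.cls t else C) b
        rw [if_pos (by omega)]; exact hy
    · refine ⟨P.n, a, b, Or.inr ⟨rfl, h2⟩, ?_, ?_⟩
      · change x ∈ (if P.n ≤ P.n then P.cls P.n else C) a
        rw [if_pos le_rfl]; exact hx
      · change y ∈ (if P.n ≤ P.n then P.cls P.n else C) b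
        rw [if_pos le_rfl]; exact hy

end Path

end Pool.Agent.Lib.MP_21a028_co
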