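import Pool.Agent.Lib.MP_21a028_co.Sat
import Pool.Agent.Lib.MP_21a028_co.Ext

/-!
The step of the colouring process at a join.
-/

namespace Pool.Agent.Lib.MP_21a028_co

open Finset

/-- the two labels of a join -/
def Jab (a b : Fin 3) (l l' : Fin 3) : Prop := (l = a ∧ l' = b) ∨ (l = b ∧ l' = a)

/-- laminar demands -/
def Lam {V : Type} {k : ℕ} (D : Set (Fin k × Finset V)) : Prop :=
  ∀ p ∈ D, ∀ q ∈ D, p.2 ⊆ q.2 ∨ q.2 ⊆ p.2 ∨ Disjoint p.2 q.2

/-- the classes `C` are not split by the demands -/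
def Atom {V : Type} {k : ℕ} (D : Set (Fin k × Finset V)) (C : Fin 3 → Finset V) : Prop :=
  ∀ p ∈ D, ∀ i, C i ⊆ p.2 ∨ Disjoint (C i) p.2

namespace Path

variable {V : Type} {k : ℕ} (P : Path V k)

lemma Cov.symm {P : Path V k} {x y : V} (h : P.Cov x y) : P.Cov y x := by
  obtain ⟨t, a, b, hJ, hx, hy⟩ := h
  exact ⟨t, b, a, P.J_symm _ _ _ hJ, hy, hx⟩

lemma exists_max_accept [Fintype V] (D : Set (Fin k × Finset V)) (hsat : ∃ f, Sat f D)
    (Q : Fin k × Finset V → Prop) :
    ∃ E : Set (Fin k × Finset V), (∀ q ∈ E, Q q) ∧ (∃ f, Sat f (D ∪ E)) ∧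
      ∀ q, Q q → q ∉ E → ¬ ∃ f, Sat f (insert q (D ∪ E)) := by
  classical
  set F : Finset (Finset (Fin k × Finset V)) :=
    univ.filter fun E => (∀ q ∈ E, Q q) ∧ ∃ f, Sat f (D ∪ (E : Set (Fin k × Finset V))) with hF
  have hne : F.Nonempty := by
    refine ⟨∅, Finset.mem_filter.mpr ⟨mem_univ _, by simp, ?_⟩⟩
    simpa using hsat
  obtain ⟨E, hE, hmax⟩ := Finset.exists_max_image F Finset.card hne
  obtain ⟨_, hEQ, hEs⟩ := Finset.mem_filter.mp hE
  refine ⟨E, fun q hq => hEQ q hq, hEs, ?_⟩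
  rintro q hq hqE ⟨f, hf⟩
  have hqE' : q ∉ E := hqE
  have h1 := hmax (insert q E) (Finset.mem_filter.mpr ⟨mem_univ _, ?_, f, ?_⟩)
  · rw [Finset.card_insert_of_notMem hqE'] at h1
    omega
  · intro r hr
    rcases Finset.mem_insert.mp hr with rfl | hr
    · exact hq
    · exact hEQ r hr
  · apply hf.mono
    intro r hr
    rcases hr with hr | hr
    · exact Or.inr (Or.inl hr)
    · rcases Finset.mem_insert.mp (Finset.mem_coe.mp hr) with rfl | hr
      · exact Or.inl rfl
      · exact Or.inr (Or.inr hr)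

/-- At a join of two classes no pair of which was joined before, demands can be accepted. -/
theorem accept [Fintype V] (a b : Fin 3) (hab : a ≠ b) (ha : (P.cls P.n a).Nonempty)
    (hb : (P.cls P.n b).Nonempty) (hsat : ∃ f, Sat f (P.dem P.n)) (hlam : Lam (P.dem P.n))
    (hatom : Atom (P.dem P.n) (P.cls P.n))
    (hcov : ∀ x ∈ P.cls P.n a, ∀ y ∈ P.cls P.n b, ¬ P.Cov x y) :
    ∃ (D : Set (Fin k × Finset V)) (p : V → Finset (Fin k)), P.dem P.n ⊆ D ∧ (∃ f, Sat f D) ∧
      Lam D ∧ Atom D (P.cls P.n) ∧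
      (∀ q ∈ D, q ∉ P.dem P.n → ∃ l, (l = a ∨ l = b) ∧ q.2 = P.cls P.n l) ∧
      (∀ w, ∀ c ∈ p w, c ∈ P.prov P.n w ∨ ∃ l l', Jab a b l l' ∧ w ∈ P.cls P.n l ∧
        (c, P.cls P.n l') ∈ D) ∧
      P.IsExt (P.cls P.n) D p (Jab a b) := by
  classical
  set C := P.cls P.n with hC
  obtain ⟨E, hEQ, ⟨f, hf⟩, hEmax⟩ := exists_max_accept (P.dem P.n) hsat
    (fun q => ∃ l l', Jab a b l l' ∧ q.2 = C l' ∧ ∀ w ∈ C l, q.1 ∉ P.prov P.n w)
  have hdisj := P.disj P.n le_rfl
  have hprov := P.provCls P.n le_rfl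
  have Jsymm : ∀ l l', Jab a b l l' → Jab a b l' l := by
    rintro l l' (⟨h1, h2⟩ | ⟨h1, h2⟩)
    · exact Or.inr ⟨h2, h1⟩
    · exact Or.inl ⟨h2, h1⟩
  have Jne : ∀ l l', Jab a b l l' → l ≠ l' := by
    rintro l l' (⟨rfl, rfl⟩ | ⟨rfl, rfl⟩)
    · exact hab
    · exact hab.symm
  have Juniq : ∀ l m m', Jab a b l m → Jab a b l m' → m = m' := by
    rintro l m m' (⟨h1, h2⟩ | ⟨h1, h2⟩) (⟨h3, h4⟩ | ⟨h3, h4⟩)
    · rw [h2, h4]
    · exact absurd (h1.symm.trans h3) hab
    · exact absurd (h3.symm.trans h1) hab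
    · rw [h2, h4]
  have Jnon : ∀ l l', Jab a b l l' → (C l).Nonempty := by
    rintro l l' (⟨rfl, _⟩ | ⟨rfl, _⟩)
    · exact ha
    · exact hb
  have hmem : ∀ i j x, x ∈ C i → x ∈ C j → i = j := by
    intro i j x hi hj
    by_contra h
    exact Finset.disjoint_left.mp (hdisj i j h) hi hj
  -- properties of the new demands
  have hatomD : Atom (P.dem P.n ∪ E) C := by
    rintro q (hq | hq) i
    · exact hatom q hq i
    · obtain ⟨l, l', _, h2, _⟩ := hEQ q hq
      rw [h2]
      by_cases h : i = l'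
      · left; rw [h]
      · right; exact hdisj i l' h
  have hlamD : Lam (P.dem P.n ∪ E) := by
    rintro p (hp | hp) q (hq | hq)
    · exact hlam p hp q hq
    · obtain ⟨l, l', _, h2, _⟩ := hEQ q hq
      rcases hatom p hp l' with h | h
      · right; left; rw [h2]; exact h
      · right; right; rw [h2]; exact h.symm
    · obtain ⟨l, l', _, h2, _⟩ := hEQ p hp
      rcases hatom q hq l' with h | h
      · left; rw [h2]; exact h
      · right; right; rw [h2]; exact h
    · obtain ⟨l, l', _, h2, _⟩ := hEQ p hp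
      rcases hatomD q (Or.inr hq) l' with h | h
      · left; rw [h2]; exact h
      · right; right; rw [h2]; exact h
  refine ⟨P.dem P.n ∪ E, fun w => P.prov P.n w ∪
    univ.filter fun c => ∃ l l', Jab a b l l' ∧ w ∈ C l ∧ (c, C l') ∈ E,
    Set.subset_union_left, ⟨f, hf⟩, hlamD, hatomD, ?_, ?_, ?_⟩
  · rintro q (hq | hq) hnq
    · exact absurd hq hnq
    · obtain ⟨l, l', h1, h2, _⟩ := hEQ q hq
      refine ⟨l', ?_, h2⟩
      rcases h1 with ⟨_, h⟩ | ⟨_, h⟩
      · exact Or.inr h
      · exact Or.inl h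
  · intro w c hc
    rcases Finset.mem_union.mp hc with h | h
    · exact Or.inl h
    · obtain ⟨l, l', h1, h2, h3⟩ := (Finset.mem_filter.mp h).2
      exact Or.inr ⟨l, l', h1, h2, Or.inr h3⟩
  · -- membership in the new set of provided colours
    have hpw : ∀ l l' w, Jab a b l l' → w ∈ C l → ∀ c, (c ∈ P.prov P.n w ∪
        univ.filter fun c => ∃ l l', Jab a b l l' ∧ w ∈ C l ∧ (c, C l') ∈ E) ↔
        (c ∈ P.prov P.n w ∨ (c, C l') ∈ E) := by
      intro l l' w hJ hw c
      rw [Finset.mem_union, Finset.mem_filter]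
      constructor
      · rintro (h | ⟨_, m, m', h1, h2, h3⟩)
        · exact Or.inl h
        · have := hmem m l w h2 hw
          subst this
          rw [Juniq _ _ _ hJ h1]
          exact Or.inr h3
      · rintro (h | h)
        · exact Or.inl h
        · exact Or.inr ⟨mem_univ _, l, l', hJ, hw, h⟩
    -- a colour of `E` on the partner class is new
    have hEnew : ∀ l l' c, Jab a b l l' → (c, C l') ∈ E → ∀ w ∈ C l, c ∉ P.prov P.n w := by
      intro l l' c hJ hE w hw
      obtain ⟨m, m', h1, h2, h3⟩ := hEQ _ hE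
      have h4 : l' = m' := by
        obtain ⟨z, hz⟩ := Jnon l' l (Jsymm _ _ hJ)
        exact hmem l' m' z hz (by rw [← h2]; exact hz)
      subst h4
      have h5 := Juniq _ _ _ (Jsymm _ _ hJ) (Jsymm _ _ h1)
      subst h5
      exact h3 w hw
    have hrejE : ∀ l l' c w, Jab a b l l' → w ∈ C l → c ∉ P.prov P.n w → (c, C l') ∉ E →
        ¬ ∃ f, Sat f (insert (c, C l') (P.dem P.n ∪ E)) := by
      intro l l' c w hJ hw hc hnE
      apply hEmax _ _ hnE
      refine ⟨l, l', hJ, rfl, ?_⟩
      intro w' hw'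
      rw [hprov l w' hw' w hw]
      exact hc
    constructor
    · exact Jsymm
    · exact Jne
    · exact Juniq
    · exact Jnon
    · exact hdisj
    · intro i; exact ⟨i, subset_rfl⟩
    · intro i x _; exact Finset.subset_union_left
    · intro i x hx y hy
      rw [hprov i x hx y hy]
      congr 1
      ext c
      simp only [Finset.mem_filter, Finset.mem_univ, true_and]
      constructor
      · rintro ⟨l, l', h1, h2, h3⟩
        have := hmem l i x h2 hx
        subst this
        exact ⟨l, l', h1, hy, h3⟩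
      · rintro ⟨l, l', h1, h2, h3⟩
        have := hmem l i y h2 hy
        subst this
        exact ⟨l, l', h1, hx, h3⟩
    · rintro q (hq | hq) i x hx hxq
      · exact Or.inl hq
      · obtain ⟨l, l', h1, h2, h3⟩ := hEQ q hq
        refine Or.inr ⟨l, l', h1, ?_, ?_⟩
        · exact h2
        · intro w hw
          refine ⟨h3 w hw, ?_⟩
          rw [hpw l l' w h1 hw, ← h2]
          exact Or.inr hq
    · intro l l' hJ hk w hw
      ext c
      simp only [Finset.mem_univ, iff_true]
      rw [hpw l l' w hJ hw]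
      by_contra hcon
      push Not at hcon
      have h1 := hrejE l l' c w hJ hw hcon.1 hcon.2
      have h2 := reject_card hf (C l') (fun p hp => hatomD p hp l') c h1
      exact absurd h2 (not_le.mpr hk)
    · intro l l' hJ w hw hp hne
      have hnoE : ∀ c, (c, C l') ∉ E := by
        intro c hc
        have h1 := (hpw l l' w hJ hw c).mpr (Or.inr hc)
        rw [hp] at h1
        exact hEnew l l' c hJ hc w hw h1
      obtain ⟨c0, hc0⟩ : ∃ c0, c0 ∉ P.prov P.n w := by
        by_contra hcon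
        push Not at hcon
        apply hne
        ext c
        simp [hcon c]
      have hrej := hrejE l l' c0 w hJ hw hc0 (hnoE c0)
      have hcard := reject_card hf (C l') (fun p hp => hatomD p hp l') c0 hrej
      obtain ⟨y, hy⟩ := Jnon l' l (Jsymm _ _ hJ)
      obtain ⟨q, hq, hsub, hqf, hX⟩ := reject_origin hf hlamD (C l') y hy
        (fun p hp => hatomD p hp l') c0 hrej
      refine ⟨q, ?_, hsub, ?_, ?_⟩
      · rcases hq with hq | hq
        · exact hq
        · exfalso
          obtain ⟨m, m', h1, h2, _⟩ := hEQ q hq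
          have h3 := hsub hy
          rw [h2] at h3
          have h4 := hmem l' m' y hy h3
          apply hnoE q.1
          rw [h4, ← h2]
          exact hq
      · by_contra hcon
        have h1 := hrejE l l' q.1 w hJ hw hcon (hnoE _)
        apply h1
        refine ⟨f, ?_⟩
        rintro r (rfl | hr)
        · exact ⟨y, hy, hqf.symm⟩
        · exact hf r hr
      · intro i hi
        by_cases h : i = l'
        · rw [h]; exact hcard
        · exact hX (C i) (fun r hr => hatomD r hr i) (hdisj i l' h) hi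
    · rintro l l' x y (⟨rfl, rfl⟩ | ⟨rfl, rfl⟩) hx hy
      · exact hcov x hx y hy
      · intro h
        exact hcov y hy x hx h.symm

end Path

end Pool.Agent.Lib.MP_21a028_co
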