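import Mathlib

/-!
Definitions used in the statements on domatic numbers of graphs of bounded clique-width.
-/

namespace Pool.Agent.Lib.MP_21a028_co

/-- A graph whose vertices carry labels from `Fin k`. -/
structure LabelledGraph (k : ℕ) where
  /-- the vertex set -/
  V : Type
  /-- the graph -/
  graph : SimpleGraph V
  /-- the labels -/
  label : V → Fin k

namespace LabelledGraph

variable {k : ℕ}

/-- The graph with a single vertex, labelled `i`. -/
def single (i : Fin k) : LabelledGraph k := ⟨Unit, ⊥, fun _ => i⟩

/-- The disjoint union of two labelled graphs. -/
def union (A B : LabelledGraph k) : LabelledGraph k :=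
  ⟨A.V ⊕ B.V, A.graph.sum B.graph, Sum.elim A.label B.label⟩

/-- Every vertex of label `i` gets the label `j`. -/
def relabel (i j : Fin k) (A : LabelledGraph k) : LabelledGraph k :=
  ⟨A.V, A.graph, fun v => if A.label v = i then j else A.label v⟩

/-- Every vertex of label `i` is joined to every vertex of label `j`. -/
def join (i j : Fin k) (A : LabelledGraph k) : LabelledGraph k :=
  ⟨A.V, A.graph ⊔ SimpleGraph.fromRel (fun u v => A.label u = i ∧ A.label v = j), A.label⟩

/-- The labelled graphs that can be built with the labels `Fin k` from single labelled vertices by
disjoint union, relabelling, and joining two different labels. -/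
inductive Built : LabelledGraph k → Prop
  | single (i : Fin k) : Built (single i)
  | union (A B : LabelledGraph k) : Built A → Built B → Built (union A B)
  | relabel (i j : Fin k) (A : LabelledGraph k) : Built A → Built (relabel i j A)
  | join (i j : Fin k) (hij : i ≠ j) (A : LabelledGraph k) : Built A → Built (join i j A)

end LabelledGraph

/-- The graph `G` has clique-width at most `t`: it can be built, using at most `t` labels, from
single labelled vertices by disjoint union, relabelling and joining two different labels. -/
def CliqueWidthAtMost {V : Type} (G : SimpleGraph V) (t : ℕ) : Prop :=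
  ∃ k ≤ t, ∃ A : LabelledGraph k, A.Built ∧ Nonempty (A.graph ≃g G)

/-- The set `X` is dominating: every vertex lies in `X` or has a neighbour in `X`. -/
def IsDominating {V : Type} (G : SimpleGraph V) (X : Set V) : Prop :=
  ∀ v, v ∈ X ∨ ∃ w ∈ X, G.Adj v w

/-- The domatic number: the largest `k` such that the vertex set can be partitioned into `k`
dominating sets. -/
noncomputable def domaticNumber {V : Type} (G : SimpleGraph V) : ℕ :=
  sSup {k | ∃ f : V → Fin k, ∀ i, IsDominating G (f ⁻¹' {i})}

end Pool.Agent.Lib.MP_21a028_co
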