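import Pool.Agent.Lib.MP_21a028_co.Defs

/-!
DOM-boundedness of the class of graphs of clique-width at most `t`.
-/

namespace Pool.Agent.Lib.MP_21a028_co

/-- The class of graphs of clique-width at most `t` is DOM-bounded: for every `c` there is a `d`
such that every finite graph of clique-width at most `t` and of minimum degree at least `d` has
domatic number greater than `c`. -/
def DomBounded (t : ℕ) : Prop :=
  ∀ c : ℕ, ∃ d : ℕ, ∀ (V : Type) [Fintype V] (G : SimpleGraph V) [DecidableRel G.Adj],
    CliqueWidthAtMost G t → d ≤ G.minDegree → c < domaticNumber G

end Pool.Agent.Lib.MP_21a028_co
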