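import Pool.Agent.Lib.MP_21a028_co.Tree
import Pool.Agent.Lib.MP_21a028_co.DomBounded

/-!
The class of graphs of clique-width at most `t` is not DOM-bounded if `t ≥ 4`.
-/

namespace Pool.Agent.Lib.MP_21a028_co

/-- For every `t ≥ 4` the graphs of clique-width at most `t` contain graphs of arbitrarily large
minimum degree whose domatic number is at most `3`. -/
theorem exists_four (t : ℕ) (ht : 4 ≤ t) (d : ℕ) :
    ∃ (V : Type) (_ : Fintype V) (_ : Nonempty V) (G : SimpleGraph V) (_ : DecidableRel G.Adj),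
      CliqueWidthAtMost G t ∧ d ≤ G.minDegree ∧ domaticNumber G ≤ 3 := by
  classical
  obtain ⟨A, hA, hfin, hne, hdeg, hdom⟩ := exists_graph d
  letI : Fintype A.V := Fintype.ofFinite A.V
  refine ⟨A.V, inferInstance, hne, A.graph, inferInstance, ⟨4, ht, A, hA, ⟨SimpleGraph.Iso.refl⟩⟩,
    ?_, ?_⟩
  · apply SimpleGraph.le_minDegree_of_forall_le_degree
    intro v
    obtain ⟨s, hs, hs'⟩ := hdeg v
    rw [← SimpleGraph.card_neighborFinset_eq_degree]
    have h : s ⊆ A.graph.neighborFinset v := by
      intro w hw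
      rw [SimpleGraph.mem_neighborFinset]
      exact hs' w hw
    have := Finset.card_le_card h
    omega
  · apply csSup_le'
    rintro k ⟨f, hf⟩
    by_contra hk
    exact hdom k (by omega) f hf

theorem not_domBounded {t : ℕ} (ht : 4 ≤ t) : ¬ DomBounded t := by
  intro h
  obtain ⟨d, hd⟩ := h 3
  obtain ⟨V, iV, _, G, iG, h1, h2, h3⟩ := exists_four t ht d
  have := hd V G h1 h2
  omega

end Pool.Agent.Lib.MP_21a028_co
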