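import Mathlib

/-!
The history of a vertex in the top-down colouring process for graphs of clique-width at most `3`,
and the count of the joins that do not help the vertex.
-/

namespace Pool.Agent.Lib.MP_21a028_co

open Finset

/-- The record of the process along a branch of the expression, from the root (time `0`) down
to time `n`. -/
structure Path (V : Type) (k : ℕ) where
  /-- the last time -/
  n : ℕ
  /-- the label classes -/
  cls : ℕ → Fin 3 → Finset V
  /-- the accepted demands -/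
  dem : ℕ → Set (Fin k × Finset V)
  /-- the colours already provided to a vertex -/
  prov : ℕ → V → Finset (Fin k)
  /-- the classes of the labels `a`, `b` are joined at time `t` -/
  J : ℕ → Fin 3 → Fin 3 → Prop
  J_symm : ∀ t a b, J t a b → J t b a
  J_ne : ∀ t a b, J t a b → a ≠ b
  J_uniq : ∀ t a b b', J t a b → J t a b' → b = b'
  J_lt : ∀ t a b, J t a b → t < n
  J_nonempty : ∀ t a b, J t a b → (cls t a).Nonempty
  disj : ∀ t ≤ n, ∀ i j, i ≠ j → Disjoint (cls t i) (cls t j)
  par : ∀ t < n, ∀ i, ∃ j, cls (t + 1) i ⊆ cls t j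
  mono : ∀ t < n, ∀ i, ∀ x ∈ cls (t + 1) i, prov t x ⊆ prov (t + 1) x
  provCls : ∀ t ≤ n, ∀ i, ∀ x ∈ cls t i, ∀ y ∈ cls t i, prov t x = prov t y
  origin : ∀ t ≤ n, ∀ p ∈ dem t, ∀ i, ∀ x ∈ cls t i, x ∈ p.2 → ∃ f < t, ∃ a b, J f a b ∧
    p.2 = cls f b ∧ ∀ w ∈ cls f a, p.1 ∉ prov f w ∧ p.1 ∈ prov (f + 1) w
  big : ∀ t a b, J t a b → k < (cls t b).card → ∀ w ∈ cls t a, prov (t + 1) w = univ
  rej : ∀ t a b, J t a b → ∀ w ∈ cls t a, prov (t + 1) w = prov t w → prov t w ≠ univ →
    ∃ p ∈ dem t, cls t b ⊆ p.2 ∧ p.1 ∈ prov t w ∧ ∀ i, cls t i ⊆ p.2 → (cls t i).card ≤ k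
  irr : ∀ t t' a b a' b' x y, t < t' → J t a b → J t' a' b' → x ∈ cls t a → y ∈ cls t b →
    x ∈ cls t' a' → y ∈ cls t' b' → False

namespace Path

variable {V : Type} {k : ℕ} (P : Path V k)

lemma par_le {t t' : ℕ} (h : t ≤ t') (hn : t' ≤ P.n) (i : Fin 3) :
    ∃ j, P.cls t' i ⊆ P.cls t j := by
  induction t', h using Nat.le_induction generalizing i with
  | base => exact ⟨i, subset_rfl⟩
  | succ m hm ih =>
    obtain ⟨j, hj⟩ := P.par m (by omega) i
    obtain ⟨l, hl⟩ := ih (by omega) j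
    exact ⟨l, hj.trans hl⟩

lemma mono_le {t t' : ℕ} (h : t ≤ t') (hn : t' ≤ P.n) {i : Fin 3} {x : V}
    (hx : x ∈ P.cls t' i) : P.prov t x ⊆ P.prov t' x := by
  induction t', h using Nat.le_induction generalizing i with
  | base => exact subset_rfl
  | succ m hm ih =>
    obtain ⟨j, hj⟩ := P.par m (by omega) i
    exact (ih (by omega) (hj hx)).trans (P.mono m (by omega) i x hx)

lemma eq_of_mem {t : ℕ} (ht : t ≤ P.n) {i j : Fin 3} {x : V} (hi : x ∈ P.cls t i)
    (hj : x ∈ P.cls t j) : i = j := by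
  by_contra h
  exact Finset.disjoint_left.mp (P.disj t ht i j h) hi hj

/-- the class containing `x` at a later time is contained in the class at an earlier time -/
lemma sub_of_mem {t t' : ℕ} (h : t ≤ t') (hn : t' ≤ P.n) {i j : Fin 3} {x : V}
    (hi : x ∈ P.cls t' i) (hj : x ∈ P.cls t j) : P.cls t' i ⊆ P.cls t j := by
  obtain ⟨l, hl⟩ := P.par_le h hn i
  have : l = j := P.eq_of_mem (by omega) (hl hi) hj
  rw [← this]; exact hl

section Vertex

variable (v : V)

/-- the label of `v` at time `t` -/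
noncomputable def lab (t : ℕ) : Fin 3 := by
  classical
  exact if h : ∃ i, v ∈ P.cls t i then h.choose else 0

variable {v}

lemma mem_lab (hv : ∃ i, v ∈ P.cls P.n i) {t : ℕ} (ht : t ≤ P.n) :
    v ∈ P.cls t (P.lab v t) := by
  have h : ∃ i, v ∈ P.cls t i := by
    obtain ⟨i, hi⟩ := hv
    obtain ⟨j, hj⟩ := P.par_le ht le_rfl i
    exact ⟨j, hj hi⟩
  unfold lab
  rw [dif_pos h]
  exact h.choose_spec

lemma lab_eq (hv : ∃ i, v ∈ P.cls P.n i) {t : ℕ} (ht : t ≤ P.n) {i : Fin 3}
    (hi : v ∈ P.cls t i) : i = P.lab v t := P.eq_of_mem ht hi (P.mem_lab hv ht)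

lemma L_anti (hv : ∃ i, v ∈ P.cls P.n i) {t t' : ℕ} (h : t ≤ t') (hn : t' ≤ P.n) :
    P.cls t' (P.lab v t') ⊆ P.cls t (P.lab v t) :=
  P.sub_of_mem h hn (P.mem_lab hv hn) (P.mem_lab hv (h.trans hn))

variable (v)

/-- the level -/
noncomputable def lev (t : ℕ) : ℕ :=
  (P.prov t v).card + (k + 1 - min (P.cls t (P.lab v t)).card (k + 1))

variable {v}

lemma prov_mono (hv : ∃ i, v ∈ P.cls P.n i) {t t' : ℕ} (h : t ≤ t') (hn : t' ≤ P.n) :
    P.prov t v ⊆ P.prov t' v := P.mono_le h hn (P.mem_lab hv hn)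

lemma lev_mono (hv : ∃ i, v ∈ P.cls P.n i) {t t' : ℕ} (h : t ≤ t') (hn : t' ≤ P.n) :
    P.lev v t ≤ P.lev v t' := by
  have h1 := Finset.card_le_card (P.prov_mono hv h hn)
  have h2 := Finset.card_le_card (P.L_anti hv h hn)
  unfold lev
  omega

lemma lev_le (t : ℕ) : P.lev v t ≤ 2 * k + 1 := by
  have h1 : (P.prov t v).card ≤ k := by
    simpa using Finset.card_le_univ (P.prov t v)
  unfold lev
  omega

lemma prov_eq_of_lev (hv : ∃ i, v ∈ P.cls P.n i) {t t' : ℕ} (h : t ≤ t') (hn : t' ≤ P.n)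
    (hl : P.lev v t = P.lev v t') : P.prov t v = P.prov t' v := by
  have h1 := Finset.card_le_card (P.prov_mono hv h hn)
  have h2 := Finset.card_le_card (P.L_anti hv h hn)
  apply Finset.eq_of_subset_of_card_le (P.prov_mono hv h hn)
  unfold lev at hl
  omega

lemma L_eq_of_lev (hv : ∃ i, v ∈ P.cls P.n i) {t t' : ℕ} (h : t ≤ t') (hn : t' ≤ P.n)
    (hl : P.lev v t = P.lev v t') (hk : (P.cls t' (P.lab v t')).card ≤ k) :
    P.cls t (P.lab v t) = P.cls t' (P.lab v t') := by
  have h1 := Finset.card_le_card (P.prov_mono hv h hn)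
  have h2 := Finset.card_le_card (P.L_anti hv h hn)
  symm
  apply Finset.eq_of_subset_of_card_le (P.L_anti hv h hn)
  unfold lev at hl
  omega

end Vertex

/-- The data attached to the unhelpful joins of `v` (times in `T`). -/
structure Waste (P : Path V k) (v : V) (T : Finset ℕ) where
  /-- the label of the partner -/
  b : ℕ → Fin 3
  /-- the third label -/
  d : ℕ → Fin 3
  /-- the colour of the responsible demand -/
  c : ℕ → Fin k
  /-- the time of the responsible demand -/
  f : ℕ → ℕ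
  /-- the label of the class that made the demand -/
  a' : ℕ → Fin 3
  /-- the label of the class on which the demand was put -/
  b' : ℕ → Fin 3
  lt_n : ∀ t ∈ T, t < P.n
  J : ∀ t ∈ T, P.J t (P.lab v t) (b t)
  d_ne : ∀ t ∈ T, d t ≠ P.lab v t ∧ d t ≠ b t
  b_small : ∀ t ∈ T, (P.cls t (b t)).card ≤ k
  b_sub : ∀ t ∈ T, P.cls t (b t) ⊆ P.cls (f t) (b' t)
  c_mem : ∀ t ∈ T, c t ∈ P.prov t v
  small : ∀ t ∈ T, ∀ i, P.cls t i ⊆ P.cls (f t) (b' t) → (P.cls t i).card ≤ k
  f_lt : ∀ t ∈ T, f t < t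
  fJ : ∀ t ∈ T, P.J (f t) (a' t) (b' t)
  fc : ∀ t ∈ T, ∀ w ∈ P.cls (f t) (a' t), c t ∉ P.prov (f t) w ∧ c t ∈ P.prov (f t + 1) w

namespace Waste

variable {P} {v : V} {T : Finset ℕ} (W : Waste P v T) (hv : ∃ i, v ∈ P.cls P.n i)

include W

lemma b_ne (t : ℕ) (ht : t ∈ T) : P.lab v t ≠ W.b t := P.J_ne _ _ _ (W.J t ht)

lemma b_nonempty (t : ℕ) (ht : t ∈ T) : (P.cls t (W.b t)).Nonempty :=
  P.J_nonempty _ _ _ (P.J_symm _ _ _ (W.J t ht))

include hv

lemma b_disj {t t' : ℕ} (ht : t ∈ T) (ht' : t' ∈ T) (htt : t ≠ t') :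
    Disjoint (P.cls t (W.b t)) (P.cls t' (W.b t')) := by
  rw [Finset.disjoint_left]
  intro y hy hy'
  have h1 := W.lt_n t ht
  have h2 := W.lt_n t' ht'
  rcases lt_or_gt_of_ne htt with h | h
  · exact P.irr t t' _ _ _ _ v y h (W.J t ht) (W.J t' ht') (P.mem_lab hv h1.le) hy
      (P.mem_lab hv h2.le) hy'
  · exact P.irr t' t _ _ _ _ v y h (W.J t' ht') (W.J t ht) (P.mem_lab hv h2.le) hy'
      (P.mem_lab hv h1.le) hy

/-- Partners inside a set all of whose classes are small. -/
lemma count_in [DecidableEq V] (S : Finset ℕ) (hS : S ⊆ T) (A : Finset V)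
    (hA : ∀ t ∈ S, P.cls t (W.b t) ⊆ A)
    (hsm : ∀ t ∈ S, ∀ j, ∀ x ∈ P.cls t j, x ∈ A → (P.cls t j).card ≤ k) :
    S.card ≤ 3 * k := by
  rcases S.eq_empty_or_nonempty with rfl | hne
  · simp
  obtain ⟨t0, ht0, hmin⟩ := S.exists_min_image id hne
  have : Nonempty V := ⟨v⟩
  choose! y hy using fun t (ht : t ∈ S) => W.b_nonempty t (hS ht)
  have hcard : S.card ≤ (univ.biUnion fun j : Fin 3 =>
      (P.cls t0 j).filter fun x => x ∈ A).card := by
    apply Finset.card_le_card_of_injOn y
    · intro t ht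
      have h1 := W.lt_n t (hS ht)
      obtain ⟨j, hj⟩ := P.par_le (hmin t ht) h1.le (W.b t)
      rw [Finset.mem_coe, Finset.mem_biUnion]
      exact ⟨j, mem_univ _, Finset.mem_filter.mpr ⟨hj (hy t ht), hA t ht (hy t ht)⟩⟩
    · intro t ht t' ht' htt
      by_contra hne
      exact Finset.disjoint_left.mp (W.b_disj hv (hS ht) (hS ht') hne) (hy t ht)
        (htt ▸ hy t' ht')
  refine hcard.trans (Finset.card_biUnion_le.trans ?_)
  calc ∑ j : Fin 3, ((P.cls t0 j).filter fun x => x ∈ A).card ≤ ∑ _j : Fin 3, k := by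
        apply Finset.sum_le_sum
        intro j _
        rcases ((P.cls t0 j).filter fun x => x ∈ A).eq_empty_or_nonempty with h | ⟨x, hx⟩
        · rw [h]; simp
        · rw [Finset.mem_filter] at hx
          exact (Finset.card_filter_le _ _).trans (hsm t0 ht0 j x hx.1 hx.2)
    _ = 3 * k := by simp

/-- no partner vertex lies in the class of `v` between the demand and the join -/
lemma b_not_L {τ t : ℕ} (ht : t ∈ T) (h1 : W.f t ≤ τ) (h2 : τ ≤ t)
    (hl : P.lev v τ = P.lev v t) {y : V} (hy : y ∈ P.cls t (W.b t)) :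
    y ∉ P.cls τ (P.lab v τ) := by
  intro hyL
  have hn := (W.lt_n t ht).le
  have hsub := P.sub_of_mem h1 (h2.trans hn) hyL (W.b_sub t ht hy)
  have h3 := W.small t ht _ ((P.L_anti hv h2 hn).trans hsub)
  rw [P.L_eq_of_lev hv h2 hn hl h3] at hyL
  exact W.b_ne t ht (P.eq_of_mem hn hyL hy)

omit hv in
/-- a class meeting the responsible set is inside it -/
lemma sub_resp {t : ℕ} (ht : t ∈ T) {j : Fin 3} {x : V} (hx : x ∈ P.cls t j)
    (hxU : x ∈ P.cls (W.f t) (W.b' t)) : P.cls t j ⊆ P.cls (W.f t) (W.b' t) :=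
  P.sub_of_mem (W.f_lt t ht).le (W.lt_n t ht).le hx hxU

/-- demands made before the time `τ` are responsible for few unhelpful joins after `τ` -/
lemma old_card (S : Finset ℕ) (hS : S ⊆ T) (τ : ℕ) (hτ : ∀ t ∈ S, τ ≤ t ∧ W.f t ≤ τ) :
    S.card ≤ 9 * k := by
  classical
  have hcov : S ⊆ univ.biUnion fun i : Fin 3 =>
      S.filter fun t => P.cls t (W.b t) ⊆ P.cls τ i := by
    intro t ht
    obtain ⟨j, hj⟩ := P.par_le (hτ t ht).1 (W.lt_n t (hS ht)).le (W.b t)
    rw [Finset.mem_biUnion]
    exact ⟨j, mem_univ _, Finset.mem_filter.mpr ⟨ht, hj⟩⟩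
  refine (Finset.card_le_card hcov).trans (Finset.card_biUnion_le.trans ?_)
  calc ∑ i : Fin 3, (S.filter fun t => P.cls t (W.b t) ⊆ P.cls τ i).card
      ≤ ∑ _i : Fin 3, 3 * k := by
        apply Finset.sum_le_sum
        intro i _
        apply W.count_in hv _ ((Finset.filter_subset _ _).trans hS) (P.cls τ i)
        · intro t ht
          exact (Finset.mem_filter.mp ht).2
        · intro t ht j x hx hxA
          rw [Finset.mem_filter] at ht
          obtain ⟨htS, hsub⟩ := ht
          obtain ⟨h1, h2⟩ := hτ t htS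
          have hn := (W.lt_n t (hS htS)).le
          obtain ⟨y, hy⟩ := W.b_nonempty t (hS htS)
          have h3 := P.sub_of_mem h2 (h1.trans hn) (hsub hy) (W.b_sub t (hS htS) hy)
          exact W.small t (hS htS) j (W.sub_resp (hS htS) hx (h3 hxA))
    _ = 9 * k := by simp; ring

/-- If at time `τ` the classes not containing `v` are small or harmless, then few unhelpful joins
follow. -/
lemma new_card (S : Finset ℕ) (hS : S ⊆ T) (τ : ℕ) (hτ : ∀ t ∈ S, τ ≤ t ∧ P.lev v τ = P.lev v t)
    (hsm : ∀ i, i ≠ P.lab v τ → (P.cls τ i).card ≤ k ∨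
      ∀ x ∈ P.cls τ i, P.prov τ v ⊆ P.prov τ x) :
    S.card ≤ 9 * k + 9 * k ^ 3 := by
  classical
  rw [← Finset.card_filter_add_card_filter_not (s := S) (fun t => W.f t ≤ τ)]
  apply Nat.add_le_add
  · apply W.old_card hv _ ((Finset.filter_subset _ _).trans hS) τ
    intro t ht
    rw [Finset.mem_filter] at ht
    exact ⟨(hτ t ht.1).1, ht.2⟩
  · set S' := S.filter fun t => ¬ W.f t ≤ τ with hS'
    have hS'T : S' ⊆ T := (Finset.filter_subset _ _).trans hS
    have : Nonempty V := ⟨v⟩
    choose! w hw using fun t (ht : t ∈ S') => P.J_nonempty _ _ _ (W.fJ t (hS'T ht))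
    set Z : Finset V := (univ.filter fun i : Fin 3 => (P.cls τ i).card ≤ k).biUnion
      fun i => P.cls τ i with hZ
    have hZcard : Z.card ≤ 3 * k := by
      refine Finset.card_biUnion_le.trans ?_
      calc ∑ i ∈ univ.filter (fun i : Fin 3 => (P.cls τ i).card ≤ k), (P.cls τ i).card
          ≤ ∑ _i ∈ univ.filter (fun i : Fin 3 => (P.cls τ i).card ≤ k), k := by
            apply Finset.sum_le_sum
            intro i hi
            exact (Finset.mem_filter.mp hi).2
        _ ≤ ∑ _i : Fin 3, k := by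
            apply Finset.sum_le_sum_of_subset (Finset.filter_subset _ _)
        _ = 3 * k := by simp
    have hmaps : ∀ t ∈ S', (w t, W.c t) ∈ Z ×ˢ (univ : Finset (Fin k)) := by
      intro t ht
      rw [Finset.mem_product]
      refine ⟨?_, mem_univ _⟩
      have htS := (Finset.mem_filter.mp ht).1
      have hft : τ ≤ W.f t := by
        have := (Finset.mem_filter.mp ht).2
        omega
      obtain ⟨h1, h2⟩ := hτ t htS
      have hn := (W.lt_n t (hS htS)).le
      have hfn : W.f t ≤ P.n := (W.f_lt t (hS htS)).le.trans hn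
      have hP : P.prov τ v = P.prov t v := P.prov_eq_of_lev hv h1 hn h2
      have hcP : W.c t ∈ P.prov τ v := by rw [hP]; exact W.c_mem t (hS htS)
      obtain ⟨i, hi⟩ := P.par_le hft hfn (W.a' t)
      have hwi : w t ∈ P.cls τ i := hi (hw t ht)
      have hc1 := (W.fc t (hS htS) (w t) (hw t ht)).1
      have hmono := P.mono_le hft hfn (hw t ht)
      have hi1 : i ≠ P.lab v τ := by
        rintro rfl
        apply hc1
        apply hmono
        rw [P.provCls τ (h1.trans hn) _ (w t) hwi v (P.mem_lab hv (h1.trans hn))]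
        exact hcP
      rcases hsm i hi1 with h | h
      · rw [hZ, Finset.mem_biUnion]
        exact ⟨i, Finset.mem_filter.mpr ⟨mem_univ _, h⟩, hwi⟩
      · exact absurd (hmono (h _ hwi hcP)) hc1
    have hfib : ∀ z ∈ Z ×ˢ (univ : Finset (Fin k)),
        (S'.filter fun t => (w t, W.c t) = z).card ≤ 3 * k := by
      rintro ⟨w0, c0⟩ _
      rcases (S'.filter fun t => (w t, W.c t) = (w0, c0)).eq_empty_or_nonempty with h | ⟨t1, ht1⟩
      · rw [h]; simp
      · have key : ∀ t ∈ S'.filter (fun t => (w t, W.c t) = (w0, c0)),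
            t ∈ T ∧ w0 ∈ P.cls (W.f t) (W.a' t) ∧ W.c t = c0 := by
          intro t ht
          rw [Finset.mem_filter, Prod.mk.injEq] at ht
          refine ⟨hS'T ht.1, ?_, ht.2.2⟩
          rw [← ht.2.1]
          exact hw t ht.1
        obtain ⟨hT1, hw1, hc1⟩ := key t1 ht1
        have hlt : ∀ t t', t ∈ T → t' ∈ T → w0 ∈ P.cls (W.f t) (W.a' t) →
            w0 ∈ P.cls (W.f t') (W.a' t') → W.c t = c0 → W.c t' = c0 →
            ¬ W.f t < W.f t' := by
          intro t t' ht ht' hwt hwt' hct hct' hlt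
          have h1 := (W.fc t ht w0 hwt).2
          have h2 := (W.fc t' ht' w0 hwt').1
          have hfn : W.f t' ≤ P.n := (W.f_lt t' ht').le.trans (W.lt_n t' ht').le
          have h3 := P.mono_le (show W.f t + 1 ≤ W.f t' by omega) hfn hwt'
          rw [hct] at h1
          rw [hct'] at h2
          exact h2 (h3 h1)
        have hU : ∀ t ∈ S'.filter (fun t => (w t, W.c t) = (w0, c0)),
            P.cls (W.f t) (W.b' t) = P.cls (W.f t1) (W.b' t1) := by
          intro t ht
          obtain ⟨hTt, hwt, hct⟩ := key t ht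
          have h1 := hlt t t1 hTt hT1 hwt hw1 hct hc1
          have h2 := hlt t1 t hT1 hTt hw1 hwt hc1 hct
          have hf : W.f t = W.f t1 := by omega
          have hfn : W.f t1 ≤ P.n := (W.f_lt t1 hT1).le.trans (W.lt_n t1 hT1).le
          rw [hf] at hwt
          have ha := P.eq_of_mem hfn hwt hw1
          have hJ := W.fJ t hTt
          rw [hf, ha] at hJ
          rw [hf, P.J_uniq _ _ _ _ hJ (W.fJ t1 hT1)]
        apply W.count_in hv _ ((Finset.filter_subset _ _).trans hS'T)
          (P.cls (W.f t1) (W.b' t1))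
        · intro t ht
          rw [← hU t ht]
          exact W.b_sub t (key t ht).1
        · intro t ht j x hx hxA
          rw [← hU t ht] at hxA
          exact W.small t (key t ht).1 j (W.sub_resp (key t ht).1 hx hxA)
    have h := Finset.card_le_mul_card_image_of_maps_to (f := fun t => (w t, W.c t)) hmaps (3 * k)
      hfib
    calc S'.card ≤ 3 * k * (Z ×ˢ (univ : Finset (Fin k))).card := h
      _ = 3 * k * (Z.card * k) := by rw [Finset.card_product]; simp
      _ ≤ 3 * k * (3 * k * k) := by gcongr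
      _ = 9 * k ^ 3 := by ring

omit hv in
lemma fin3 {t : ℕ} (ht : t ∈ T) (i : Fin 3) (hi : i ≠ P.lab v t) : i = W.b t ∨ i = W.d t := by
  have h1 := W.b_ne t ht
  obtain ⟨h2, h3⟩ := W.d_ne t ht
  omega

/-- The key step: it uses that there are only three labels. -/
lemma key {τ t : ℕ} (hτT : τ ∈ T) (ht : t ∈ T) (hτ : τ < t) (hl : P.lev v τ = P.lev v t)
    (hbig : k < (P.cls t (W.d t)).card) {x : V} (hx : x ∈ P.cls t (W.d t))
    (hxv : ¬ P.prov t v ⊆ P.prov t x) (z : V) (hz : z ∈ P.cls τ (W.d τ))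
    (hr : (P.prov τ z).card = (P.prov t x).card) : W.f t ≤ τ := by
  by_contra hf
  push Not at hf
  have hn := (W.lt_n t ht).le
  have hτn : τ ≤ P.n := hτ.le.trans hn
  have hft := W.f_lt t ht
  have hfn : W.f t ≤ P.n := hft.le.trans hn
  have hlf1 := P.lev_mono hv hf.le hfn
  have hlf2 := P.lev_mono hv hft.le hn
  have hlf : P.lev v (W.f t) = P.lev v t := by omega
  have hPτ : P.prov τ v = P.prov t v := P.prov_eq_of_lev hv hτ.le hn hl
  have hPf : P.prov (W.f t) v = P.prov t v := P.prov_eq_of_lev hv hft.le hn hlf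
  -- the third class at time `t` is inside the third class at time `τ`
  obtain ⟨i, hi⟩ := P.par_le hτ.le hn (W.d t)
  have hi1 : i ≠ P.lab v τ := by
    rintro rfl
    apply hxv
    rw [← hPτ, ← P.provCls τ hτn _ x (hi hx) v (P.mem_lab hv hτn)]
    exact P.mono_le hτ.le hn hx
  have hi2 : i ≠ W.b τ := by
    rintro rfl
    have h1 := Finset.card_le_card hi
    have h2 := W.b_small τ hτT
    omega
  have hi3 : i = W.d τ := by
    rcases W.fin3 hτT i hi1 with h | h
    · exact absurd h hi2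
    · exact h
  rw [hi3] at hi
  have hpx : P.prov τ x = P.prov t x := by
    apply Finset.eq_of_subset_of_card_le (P.mono_le hτ.le hn hx)
    rw [← hr, P.provCls τ hτn _ x (hi hx) z hz]
  -- the classes at the time of the demand
  obtain ⟨w, hw⟩ := P.J_nonempty _ _ _ (W.fJ t ht)
  have hcw := (W.fc t ht w hw).1
  have hcP := W.c_mem t ht
  have hl1 : P.lab v (W.f t) ≠ W.a' t := by
    intro h
    apply hcw
    rw [← h] at hw
    rw [P.provCls _ hfn _ w hw v (P.mem_lab hv hfn), hPf]
    exact hcP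
  obtain ⟨y, hy⟩ := W.b_nonempty t ht
  have hl2 : P.lab v (W.f t) ≠ W.b' t := by
    intro h
    apply W.b_not_L hv ht le_rfl hft.le hlf hy
    rw [h]
    exact W.b_sub t ht hy
  have hl3 : W.a' t ≠ W.b' t := P.J_ne _ _ _ (W.fJ t ht)
  obtain ⟨m, hm⟩ := P.par_le hft.le hn (W.d t)
  have hm1 : m ≠ P.lab v (W.f t) := by
    rintro rfl
    apply hxv
    rw [← hPf, ← P.provCls _ hfn _ x (hm hx) v (P.mem_lab hv hfn)]
    exact P.mono_le hft.le hn hx
  have hm2 : m ≠ W.b' t := by
    rintro rfl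
    have := W.small t ht _ hm
    omega
  have hm3 : m = W.a' t := by omega
  rw [hm3] at hm
  obtain ⟨h1, h2⟩ := W.fc t ht x (hm hx)
  have h3 := P.mono_le (show W.f t + 1 ≤ t by omega) hn hx h2
  rw [← hpx] at h3
  exact h1 (P.mono_le hf.le hfn (hm hx) h3)

/-- the unhelpful joins of one level -/
lemma level_card (S : Finset ℕ) (hS : S ⊆ T) (q : ℕ) (hq : ∀ t ∈ S, P.lev v t = q) :
    S.card ≤ 9 * k * (k + 1) + (9 * k + 9 * k ^ 3) := by
  classical
  rw [← Finset.card_filter_add_card_filter_not (s := S)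
    (fun t => k < (P.cls t (W.d t)).card ∧ ∃ x ∈ P.cls t (W.d t), ¬ P.prov t v ⊆ P.prov t x)]
  apply Nat.add_le_add
  · set S' := S.filter fun t => k < (P.cls t (W.d t)).card ∧
      ∃ x ∈ P.cls t (W.d t), ¬ P.prov t v ⊆ P.prov t x with hS'
    have hS'S : S' ⊆ S := Finset.filter_subset _ _
    have : Nonempty V := ⟨v⟩
    choose! x hx hxv using fun t (ht : t ∈ S') => (Finset.mem_filter.mp ht).2.2
    have hmaps : ∀ t ∈ S', (P.prov t (x t)).card ∈ Finset.range (k + 1) := by
      intro t _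
      rw [Finset.mem_range]
      have : (P.prov t (x t)).card ≤ k := by
        simpa using Finset.card_le_univ (P.prov t (x t))
      omega
    have hfib : ∀ r ∈ Finset.range (k + 1),
        (S'.filter fun t => (P.prov t (x t)).card = r).card ≤ 9 * k := by
      intro r _
      rcases (S'.filter fun t => (P.prov t (x t)).card = r).eq_empty_or_nonempty with h | hne
      · rw [h]; simp
      · obtain ⟨τ, hτ, hmin⟩ := Finset.exists_min_image _ id hne
        have hτ' := Finset.mem_filter.mp hτ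
        apply W.old_card hv _ ((Finset.filter_subset _ _).trans (hS'S.trans hS)) τ
        intro t ht
        have hτt : τ ≤ t := hmin t ht
        have ht' := Finset.mem_filter.mp ht
        refine ⟨hτt, ?_⟩
        rcases hτt.eq_or_lt with h | h
        · rw [← h]
          exact (W.f_lt τ (hS (hS'S hτ'.1))).le
        · exact W.key hv (hS (hS'S hτ'.1)) (hS (hS'S ht'.1)) h
            (by rw [hq τ (hS'S hτ'.1), hq t (hS'S ht'.1)])
            (Finset.mem_filter.mp ht'.1).2.1 (hx t ht'.1) (hxv t ht'.1) (x τ) (hx τ hτ'.1)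
            (by rw [hτ'.2, ht'.2])
    have h := Finset.card_le_mul_card_image_of_maps_to
      (f := fun t => (P.prov t (x t)).card) hmaps (9 * k) hfib
    simpa using h
  · set S' := S.filter fun t => ¬ (k < (P.cls t (W.d t)).card ∧
      ∃ x ∈ P.cls t (W.d t), ¬ P.prov t v ⊆ P.prov t x) with hS'
    have hS'S : S' ⊆ S := Finset.filter_subset _ _
    rcases S'.eq_empty_or_nonempty with h | hne
    · rw [h]; simp
    · obtain ⟨τ, hτ, hmin⟩ := Finset.exists_min_image _ id hne
      apply W.new_card hv S' (hS'S.trans hS) τ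
      · intro t ht
        exact ⟨hmin t ht, by rw [hq τ (hS'S hτ), hq t (hS'S ht)]⟩
      · intro i hi
        have hτ' := Finset.mem_filter.mp hτ
        rcases W.fin3 (hS hτ'.1) i hi with h | h
        · left; rw [h]; exact W.b_small τ (hS hτ'.1)
        · rw [h]
          by_cases hc : (P.cls τ (W.d τ)).card ≤ k
          · exact Or.inl hc
          · right
            intro x hx
            by_contra hcon
            exact hτ'.2 ⟨by omega, x, hx, hcon⟩

/-- the number of unhelpful joins -/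
lemma total_card : T.card ≤
    (9 * k * (k + 1) + (9 * k + 9 * k ^ 3)) * (2 * k + 2) := by
  classical
  have h := Finset.card_le_mul_card_image_of_maps_to (s := T) (t := Finset.range (2 * k + 2))
    (f := fun t => P.lev v t) (by
      intro t _
      rw [Finset.mem_range]
      have := P.lev_le (v := v) t
      omega) (9 * k * (k + 1) + (9 * k + 9 * k ^ 3)) (by
      intro q _
      apply W.level_card hv _ (Finset.filter_subset _ _) q
      intro t ht
      exact (Finset.mem_filter.mp ht).2)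
  simpa using h

end Waste

/-- `y` was joined to `x` -/
def Cov (x y : V) : Prop := ∃ t a b, P.J t a b ∧ x ∈ P.cls t a ∧ y ∈ P.cls t b

variable {v : V}

lemma prov_ne (hv : ∃ i, v ∈ P.cls P.n i) (hfin : P.prov P.n v ≠ univ) {t : ℕ} (ht : t ≤ P.n) :
    P.prov t v ≠ univ := by
  intro h
  apply hfin
  have := P.prov_mono hv ht le_rfl
  rw [h] at this
  exact Finset.univ_subset_iff.mp this

lemma partner_small (hv : ∃ i, v ∈ P.cls P.n i) (hfin : P.prov P.n v ≠ univ) {t : ℕ}
    {b : Fin 3} (hJ : P.J t (P.lab v t) b) : (P.cls t b).card ≤ k := by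
  by_contra h
  push Not at h
  have ht := P.J_lt _ _ _ hJ
  exact P.prov_ne hv hfin (show t + 1 ≤ P.n by omega)
    (P.big t _ _ hJ h v (P.mem_lab hv ht.le))

lemma exists_third (a b : Fin 3) (_h : a ≠ b) : ∃ d : Fin 3, d ≠ a ∧ d ≠ b := by
  revert a b
  decide

lemma exists_waste (hv : ∃ i, v ∈ P.cls P.n i) (hfin : P.prov P.n v ≠ univ) (T : Finset ℕ)
    (hT : ∀ t ∈ T, (∃ b, P.J t (P.lab v t) b) ∧ P.prov (t + 1) v = P.prov t v) :
    Nonempty (Waste P v T) := by
  classical
  have hk : Nonempty (Fin k) := by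
    by_contra h
    rw [not_nonempty_iff] at h
    apply hfin
    ext c
    exact h.elim c
  have key : ∀ t ∈ T, ∃ (b d : Fin 3) (c : Fin k) (f : ℕ) (a' b' : Fin 3),
      t < P.n ∧ P.J t (P.lab v t) b ∧ (d ≠ P.lab v t ∧ d ≠ b) ∧ (P.cls t b).card ≤ k ∧
      P.cls t b ⊆ P.cls f b' ∧ c ∈ P.prov t v ∧
      (∀ i, P.cls t i ⊆ P.cls f b' → (P.cls t i).card ≤ k) ∧ f < t ∧ P.J f a' b' ∧
      (∀ w ∈ P.cls f a', c ∉ P.prov f w ∧ c ∈ P.prov (f + 1) w) := by
    intro t ht
    obtain ⟨⟨b, hJ⟩, hprov⟩ := hT t ht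
    have htn := P.J_lt _ _ _ hJ
    obtain ⟨d, hd1, hd2⟩ := exists_third _ _ (P.J_ne _ _ _ hJ)
    obtain ⟨p, hp, hsub, hc, hsm⟩ := P.rej t _ _ hJ v (P.mem_lab hv htn.le) hprov
      (P.prov_ne hv hfin htn.le)
    obtain ⟨y, hy⟩ := P.J_nonempty _ _ _ (P.J_symm _ _ _ hJ)
    obtain ⟨f, hf, a', b', hfJ, hU, hfc⟩ := P.origin t htn.le p hp b y hy (hsub hy)
    refine ⟨b, d, p.1, f, a', b', htn, hJ, ⟨hd1, hd2⟩, P.partner_small hv hfin hJ, ?_, hc, ?_, hf,
      hfJ, hfc⟩
    · rw [← hU]; exact hsub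
    · rw [← hU]; exact hsm
  choose! b d c f a' b' h using key
  exact ⟨⟨b, d, c, f, a', b', fun t ht => (h t ht).1, fun t ht => (h t ht).2.1,
    fun t ht => (h t ht).2.2.1, fun t ht => (h t ht).2.2.2.1, fun t ht => (h t ht).2.2.2.2.1,
    fun t ht => (h t ht).2.2.2.2.2.1, fun t ht => (h t ht).2.2.2.2.2.2.1,
    fun t ht => (h t ht).2.2.2.2.2.2.2.1, fun t ht => (h t ht).2.2.2.2.2.2.2.2.1,
    fun t ht => (h t ht).2.2.2.2.2.2.2.2.2⟩⟩

/-- the bound for the number of neighbours -/
def bound (k : ℕ) : ℕ :=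
  k * ((k + 1) + (9 * k * (k + 1) + (9 * k + 9 * k ^ 3)) * (2 * k + 2))

/-- A vertex to which not all colours have been provided has few neighbours. -/
theorem card_cov (hv : ∃ i, v ∈ P.cls P.n i) (hfin : P.prov P.n v ≠ univ) (N : Finset V)
    (hN : ∀ y ∈ N, P.Cov v y) : N.card ≤ bound k := by
  classical
  set A := (Finset.range P.n).filter fun t => ∃ b, P.J t (P.lab v t) b with hA
  have hAb : ∀ t ∈ A, ∃ b, P.J t (P.lab v t) b := fun t ht => (Finset.mem_filter.mp ht).2
  choose! b hb using hAb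
  have hcov : N ⊆ A.biUnion fun t => P.cls t (b t) := by
    intro y hy
    obtain ⟨t, a, b0, hJ, hva, hyb⟩ := hN y hy
    have htn := P.J_lt _ _ _ hJ
    have ha := P.lab_eq hv htn.le hva
    subst ha
    have htA : t ∈ A := Finset.mem_filter.mpr ⟨Finset.mem_range.mpr htn, b0, hJ⟩
    rw [Finset.mem_biUnion]
    refine ⟨t, htA, ?_⟩
    rw [← P.J_uniq _ _ _ _ hJ (hb t htA)]
    exact hyb
  have hAcard : A.card ≤ (k + 1) + (9 * k * (k + 1) + (9 * k + 9 * k ^ 3)) * (2 * k + 2) := by
    rw [← Finset.card_filter_add_card_filter_not (s := A)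
      (fun t => P.prov (t + 1) v ≠ P.prov t v)]
    apply Nat.add_le_add
    · have h := Finset.card_le_card_of_injOn (s := A.filter fun t =>
        P.prov (t + 1) v ≠ P.prov t v) (t := Finset.range (k + 1))
        (fun t => (P.prov t v).card) (by
          intro t _
          rw [Finset.mem_coe, Finset.mem_range]
          have : (P.prov t v).card ≤ k := by
            simpa using Finset.card_le_univ (P.prov t v)
          show (P.prov t v).card < k + 1
          omega) (by
          have hlt : ∀ t t', t ∈ A → t' ∈ A → P.prov (t + 1) v ≠ P.prov t v → t < t' →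
              (P.prov t v).card < (P.prov t' v).card := by
            intro t t' ht ht' hne htt
            have h1 := Finset.mem_range.mp (Finset.mem_filter.mp ht).1
            have h2 := Finset.mem_range.mp (Finset.mem_filter.mp ht').1
            have h3 : P.prov t v ⊂ P.prov (t + 1) v :=
              (P.prov_mono hv (Nat.le_succ t) (by omega)).ssubset_of_ne hne.symm
            exact (Finset.card_lt_card h3).trans_le
              (Finset.card_le_card (P.prov_mono hv (by omega) h2.le))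
          intro t ht t' ht' htt
          simp only [Finset.coe_filter, Set.mem_setOf_eq] at ht ht'
          rcases lt_trichotomy t t' with h | h | h
          · have := hlt t t' ht.1 ht'.1 ht.2 h
            simp only at htt
            omega
          · exact h
          · have := hlt t' t ht'.1 ht.1 ht'.2 h
            simp only at htt
            omega)
      simpa using h
    · obtain ⟨W⟩ := P.exists_waste hv hfin
        (A.filter fun t => ¬ P.prov (t + 1) v ≠ P.prov t v) (by
          intro t ht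
          obtain ⟨h1, h2⟩ := Finset.mem_filter.mp ht
          exact ⟨⟨b t, hb t h1⟩, not_not.mp h2⟩)
      exact W.total_card hv
  calc N.card ≤ (A.biUnion fun t => P.cls t (b t)).card := Finset.card_le_card hcov
    _ ≤ A.card * k := by
        apply Finset.card_biUnion_le_card_mul
        intro t ht
        exact P.partner_small hv hfin (hb t ht)
    _ ≤ ((k + 1) + (9 * k * (k + 1) + (9 * k + 9 * k ^ 3)) * (2 * k + 2)) * k := by gcongr
    _ = bound k := by rw [bound, mul_comm]

end Path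

end Pool.Agent.Lib.MP_21a028_co
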