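import Pool.Agent.Lib.MP_21a028_co.Accept
import Pool.Agent.Lib.MP_21a028_co.Defs

/-!
The colouring process along an expression with three labels.
-/

namespace Pool.Agent.Lib.MP_21a028_co

open Finset LabelledGraph

variable {V : Type} {k m : ℕ}

/-- the label classes of a labelled graph embedded into `V` -/
noncomputable def clsOf [Fintype V] (A : LabelledGraph m) (ι : Fin m → Fin 3) (φ : A.V → V)
    (i : Fin 3) : Finset V := by
  classical
  exact univ.filter fun v => ∃ x, φ x = v ∧ ι (A.label x) = i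

lemma mem_clsOf [Fintype V] {A : LabelledGraph m} {ι : Fin m → Fin 3} {φ : A.V → V} {i : Fin 3}
    {v : V} : v ∈ clsOf A ι φ i ↔ ∃ x, φ x = v ∧ ι (A.label x) = i := by
  classical
  unfold clsOf
  simp

lemma clsOf_disj [Fintype V] {A : LabelledGraph m} {ι : Fin m → Fin 3} {φ : A.V → V}
    (hφ : Function.Injective φ) (i j : Fin 3) (hij : i ≠ j) :
    Disjoint (clsOf A ι φ i) (clsOf A ι φ j) := by
  rw [Finset.disjoint_left]
  intro v hi hj
  obtain ⟨x, hx, h1⟩ := mem_clsOf.mp hi
  obtain ⟨y, hy, h2⟩ := mem_clsOf.mp hj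
  have : x = y := hφ (hx.trans hy.symm)
  subst this
  exact hij (h1.symm.trans h2)

/-- The state of the process at the labelled graph `A`, embedded by `φ`. -/
structure Ctx [Fintype V] (G : SimpleGraph V) (A : LabelledGraph m) (ι : Fin m → Fin 3)
    (φ : A.V → V) (P : Path V k) : Prop where
  inj : Function.Injective φ
  cls : P.cls P.n = clsOf A ι φ
  sat : ∃ f, Sat f (P.dem P.n)
  lam : Lam (P.dem P.n)
  atom : Atom (P.dem P.n) (P.cls P.n)
  sub : ∀ x y, A.graph.Adj x y → G.Adj (φ x) (φ y)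
  cov : ∀ x z, G.Adj (φ x) z → (∃ y, φ y = z ∧ A.graph.Adj x y) ∨ P.Cov (φ x) z
  seen : ∀ x, ∀ c ∈ P.prov P.n (φ x), ∃ U, (c, U) ∈ P.dem P.n ∧ ∀ y ∈ U, G.Adj (φ x) y

/-- The result of the process. -/
def Concl (G : SimpleGraph V) (A : LabelledGraph m) (φ : A.V → V) (D : Set (Fin k × Finset V)) :
    Prop :=
  ∃ D' : Set (Fin k × Finset V), D ⊆ D' ∧ (∃ f, Sat f D') ∧ Lam D' ∧
    (∀ q ∈ D', q ∉ D → ∀ z ∈ q.2, ∃ x, φ x = z) ∧
    ∀ x : A.V, ∃ P' : Path V k, (∃ i, φ x ∈ P'.cls P'.n i) ∧
      (∀ z, G.Adj (φ x) z → P'.Cov (φ x) z) ∧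
      ∀ c ∈ P'.prov P'.n (φ x), ∃ U, (c, U) ∈ D' ∧ ∀ y ∈ U, G.Adj (φ x) y

/-- a refinement step without join -/
lemma isExt_refine (P : Path V k) (C : Fin 3 → Finset V) (D : Set (Fin k × Finset V))
    (hdisj : ∀ i j, i ≠ j → Disjoint (C i) (C j)) (hpar : ∀ i, ∃ j, C i ⊆ P.cls P.n j)
    (horig : ∀ q ∈ D, ∀ i, ∀ x ∈ C i, x ∈ q.2 → q ∈ P.dem P.n) :
    P.IsExt C D (P.prov P.n) (fun _ _ => False) where
  J_symm := fun _ _ h => h
  J_ne := fun _ _ h => h.elim
  J_uniq := fun _ _ _ h => h.elim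
  J_nonempty := fun _ _ h => h.elim
  disj := hdisj
  par := hpar
  mono := fun _ _ _ => subset_rfl
  provCls := by
    intro i x hx y hy
    obtain ⟨j, hj⟩ := hpar i
    exact P.provCls P.n le_rfl j x (hj hx) y (hj hy)
  origin := fun q hq i x hx hxq => Or.inl (horig q hq i x hx hxq)
  big := fun _ _ h => h.elim
  rej := fun _ _ h => h.elim
  irr := fun _ _ _ _ h => h.elim

lemma atom_refine {D : Set (Fin k × Finset V)} {C C' : Fin 3 → Finset V} (h : Atom D C)
    (hpar : ∀ i, ∃ j, C' i ⊆ C j) : Atom D C' := by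
  intro p hp i
  obtain ⟨j, hj⟩ := hpar i
  rcases h p hp j with h1 | h1
  · exact Or.inl (hj.trans h1)
  · exact Or.inr (Finset.disjoint_of_subset_left hj h1)

lemma run_single [Fintype V] (G : SimpleGraph V) (ι : Fin m → Fin 3) (i : Fin m)
    (φ : (single i).V → V) (P : Path V k) (h : Ctx G (single i) ι φ P) :
    Concl G (single i) φ (P.dem P.n) := by
  refine ⟨P.dem P.n, subset_rfl, h.sat, h.lam, fun q hq hq' => absurd hq hq', ?_⟩
  intro x
  refine ⟨P, ⟨ι i, ?_⟩, ?_, h.seen x⟩
  · rw [h.cls]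
    exact mem_clsOf.mpr ⟨x, rfl, rfl⟩
  · intro z hz
    rcases h.cov x z hz with ⟨y, _, hy⟩ | h1
    · exact False.elim hy
    · exact h1

lemma run_union [Fintype V] (G : SimpleGraph V) (ι : Fin m → Fin 3) (A B : LabelledGraph m)
    (ihA : ∀ (φ : A.V → V) (P : Path V k), Ctx G A ι φ P → Concl G A φ (P.dem P.n))
    (ihB : ∀ (φ : B.V → V) (P : Path V k), Ctx G B ι φ P → Concl G B φ (P.dem P.n))
    (φ : (union A B).V → V) (P : Path V k) (h : Ctx G (union A B) ι φ P) :
    Concl G (union A B) φ (P.dem P.n) := by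
  have hparA : ∀ i, ∃ j, clsOf A ι (fun a => φ (Sum.inl a)) i ⊆ P.cls P.n j := by
    intro i
    refine ⟨i, ?_⟩
    intro v hv
    obtain ⟨x, hx, hl⟩ := mem_clsOf.mp hv
    rw [h.cls]
    exact mem_clsOf.mpr ⟨Sum.inl x, hx, hl⟩
  have hparB : ∀ i, ∃ j, clsOf B ι (fun a => φ (Sum.inr a)) i ⊆ P.cls P.n j := by
    intro i
    refine ⟨i, ?_⟩
    intro v hv
    obtain ⟨x, hx, hl⟩ := mem_clsOf.mp hv
    rw [h.cls]
    exact mem_clsOf.mpr ⟨Sum.inr x, hx, hl⟩
  have hinjA : Function.Injective fun a : A.V => φ (Sum.inl a) :=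
    fun a b hab => Sum.inl_injective (h.inj hab)
  have hinjB : Function.Injective fun a : B.V => φ (Sum.inr a) :=
    fun a b hab => Sum.inr_injective (h.inj hab)
  have hext1 := isExt_refine P (clsOf A ι fun a => φ (Sum.inl a)) (P.dem P.n)
    (clsOf_disj hinjA) hparA (fun q hq _ _ _ _ => hq)
  obtain ⟨D1, hD1, hs1, hl1, hn1, hx1⟩ := ihA (fun a => φ (Sum.inl a)) (P.ext _ _ _ _ hext1) {
    inj := hinjA
    cls := Path.ext_cls hext1
    sat := by rw [Path.ext_dem]; exact h.sat
    lam := by rw [Path.ext_dem]; exact h.lam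
    atom := by
      rw [Path.ext_dem, Path.ext_cls]
      exact atom_refine h.atom hparA
    sub := fun x y hxy => h.sub (Sum.inl x) (Sum.inl y) (by simpa [union] using hxy)
    cov := by
      intro x z hz
      rcases h.cov (Sum.inl x) z hz with ⟨y, hy, hadj⟩ | h1
      · left
        rcases y with y | y
        · exact ⟨y, hy, by simpa [union] using hadj⟩
        · exact absurd hadj (by simp [union])
      · right
        rw [Path.ext_cov]
        exact Or.inl h1
    seen := by
      intro x c hc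
      rw [Path.ext_prov] at hc
      rw [Path.ext_dem]
      exact h.seen (Sum.inl x) c hc }
  rw [Path.ext_dem] at hD1 hn1
  have hdisjB : ∀ q ∈ D1, q ∉ P.dem P.n → ∀ i, Disjoint (clsOf B ι (fun a => φ (Sum.inr a)) i)
      q.2 := by
    intro q hq hq' i
    rw [Finset.disjoint_left]
    intro v hv hvq
    obtain ⟨x, hx, _⟩ := mem_clsOf.mp hv
    obtain ⟨y, hy⟩ := hn1 q hq hq' v hvq
    have := h.inj (hx.trans hy.symm)
    exact absurd this (by simp)
  have hext2 := isExt_refine P (clsOf B ι fun a => φ (Sum.inr a)) D1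
    (clsOf_disj hinjB) hparB (by
      intro q hq i x hx hxq
      by_contra hcon
      exact Finset.disjoint_left.mp (hdisjB q hq hcon i) hx hxq)
  obtain ⟨D2, hD2, hs2, hl2, hn2, hx2⟩ := ihB (fun a => φ (Sum.inr a)) (P.ext _ _ _ _ hext2) {
    inj := hinjB
    cls := Path.ext_cls hext2
    sat := by rw [Path.ext_dem]; exact hs1
    lam := by rw [Path.ext_dem]; exact hl1
    atom := by
      rw [Path.ext_dem, Path.ext_cls]
      intro q hq i
      by_cases hq' : q ∈ P.dem P.n
      · exact atom_refine h.atom hparB q hq' i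
      · exact Or.inr (hdisjB q hq hq' i)
    sub := fun x y hxy => h.sub (Sum.inr x) (Sum.inr y) (by simpa [union] using hxy)
    cov := by
      intro x z hz
      rcases h.cov (Sum.inr x) z hz with ⟨y, hy, hadj⟩ | h1
      · left
        rcases y with y | y
        · exact absurd hadj (by simp [union])
        · exact ⟨y, hy, by simpa [union] using hadj⟩
      · right
        rw [Path.ext_cov]
        exact Or.inl h1
    seen := by
      intro x c hc
      rw [Path.ext_prov] at hc
      rw [Path.ext_dem]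
      obtain ⟨U, hU, hadj⟩ := h.seen (Sum.inr x) c hc
      exact ⟨U, hD1 hU, hadj⟩ }
  rw [Path.ext_dem] at hD2 hn2
  refine ⟨D2, hD1.trans hD2, hs2, hl2, ?_, ?_⟩
  · intro q hq hq' z hz
    by_cases hq1 : q ∈ D1
    · obtain ⟨x, hx⟩ := hn1 q hq1 hq' z hz
      exact ⟨Sum.inl x, hx⟩
    · obtain ⟨x, hx⟩ := hn2 q hq hq1 z hz
      exact ⟨Sum.inr x, hx⟩
  · rintro (x | x)
    · obtain ⟨P', h1, h2, h3⟩ := hx1 x
      refine ⟨P', h1, h2, ?_⟩
      intro c hc
      obtain ⟨U, hU, hadj⟩ := h3 c hc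
      exact ⟨U, hD2 hU, hadj⟩
    · exact hx2 x

lemma run_relabel [Fintype V] (G : SimpleGraph V) (ι : Fin m → Fin 3)
    (hι : Function.Injective ι) (i j : Fin m) (A : LabelledGraph m)
    (ih : ∀ (φ : A.V → V) (P : Path V k), Ctx G A ι φ P → Concl G A φ (P.dem P.n))
    (φ : A.V → V) (P : Path V k) (h : Ctx G (relabel i j A) ι φ P) :
    Concl G (relabel i j A) φ (P.dem P.n) := by
  classical
  have hpar : ∀ l, ∃ l', clsOf A ι φ l ⊆ P.cls P.n l' := by
    intro l
    refine ⟨if l = ι i then ι j else l, ?_⟩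
    intro v hv
    obtain ⟨x, hx, hl⟩ := mem_clsOf.mp hv
    rw [h.cls]
    refine mem_clsOf.mpr ⟨x, hx, ?_⟩
    show ι (if A.label x = i then j else A.label x) = _
    by_cases hli : A.label x = i
    · rw [if_pos hli, if_pos]
      rw [← hl, hli]
    · rw [if_neg hli, if_neg, hl]
      intro hcon
      exact hli (hι (hl.trans hcon))
  have hext := isExt_refine P (clsOf A ι φ) (P.dem P.n) (clsOf_disj h.inj) hpar
    (fun q hq _ _ _ _ => hq)
  have := ih φ (P.ext _ _ _ _ hext) {
    inj := h.inj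
    cls := Path.ext_cls hext
    sat := by rw [Path.ext_dem]; exact h.sat
    lam := by rw [Path.ext_dem]; exact h.lam
    atom := by
      rw [Path.ext_dem, Path.ext_cls]
      exact atom_refine h.atom hpar
    sub := h.sub
    cov := by
      intro x z hz
      rw [Path.ext_cov]
      rcases h.cov x z hz with h1 | h1
      · exact Or.inl h1
      · exact Or.inr (Or.inl h1)
    seen := by
      intro x c hc
      rw [Path.ext_prov] at hc
      rw [Path.ext_dem]
      exact h.seen x c hc }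
  rw [Path.ext_dem] at this
  exact this

lemma join_adj (i j : Fin m) (A : LabelledGraph m) (x y : A.V) :
    (join i j A).graph.Adj x y ↔ A.graph.Adj x y ∨ (x ≠ y ∧
      ((A.label x = i ∧ A.label y = j) ∨ (A.label y = i ∧ A.label x = j))) := by
  show (A.graph ⊔ SimpleGraph.fromRel _).Adj x y ↔ _
  rw [SimpleGraph.sup_adj, SimpleGraph.fromRel_adj]

lemma run_join [Fintype V] (G : SimpleGraph V) (ι : Fin m → Fin 3)
    (hι : Function.Injective ι) (i j : Fin m) (hij : i ≠ j) (A : LabelledGraph m)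
    (ih : ∀ (φ : A.V → V) (P : Path V k), Ctx G A ι φ P → Concl G A φ (P.dem P.n))
    (φ : A.V → V) (P : Path V k) (h : Ctx G (join i j A) ι φ P) :
    Concl G (join i j A) φ (P.dem P.n) := by
  classical
  have hcls : P.cls P.n = clsOf A ι φ := h.cls
  have hmem : ∀ x : A.V, ∀ l, φ x ∈ P.cls P.n l ↔ ι (A.label x) = l := by
    intro x l
    rw [hcls, mem_clsOf]
    constructor
    · rintro ⟨y, hy, hl⟩
      rw [h.inj hy] at hl
      exact hl
    · intro hl
      exact ⟨x, rfl, hl⟩
  have hsubA : ∀ x y, A.graph.Adj x y → G.Adj (φ x) (φ y) := fun x y hxy =>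
    h.sub x y ((join_adj i j A x y).mpr (Or.inl hxy))
  by_cases hskip : (∃ x ∈ P.cls P.n (ι i), ∃ y ∈ P.cls P.n (ι j), P.Cov x y) ∨
      ¬ (P.cls P.n (ι i)).Nonempty ∨ ¬ (P.cls P.n (ι j)).Nonempty
  · -- nothing new
    have hall : ∀ x ∈ P.cls P.n (ι i), ∀ y ∈ P.cls P.n (ι j), P.Cov x y := by
      intro x hx y hy
      rcases hskip with ⟨x0, hx0, y0, hy0, t, a, b, hJ, hxa, hyb⟩ | h1 | h1
      · have ht := P.J_lt _ _ _ hJ
        exact ⟨t, a, b, hJ, P.sub_of_mem ht.le le_rfl hx0 hxa hx,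
          P.sub_of_mem ht.le le_rfl hy0 hyb hy⟩
      · exact absurd ⟨x, hx⟩ h1
      · exact absurd ⟨y, hy⟩ h1
    exact ih φ P {
      inj := h.inj
      cls := h.cls
      sat := h.sat
      lam := h.lam
      atom := h.atom
      sub := hsubA
      cov := by
        intro x z hz
        rcases h.cov x z hz with ⟨y, hy, hadj⟩ | h1
        · rcases (join_adj i j A x y).mp hadj with h2 | ⟨_, ⟨h3, h4⟩ | ⟨h3, h4⟩⟩
          · exact Or.inl ⟨y, hy, h2⟩
          · right
            rw [← hy]
            exact hall _ ((hmem x _).mpr (by rw [h3])) _ ((hmem y _).mpr (by rw [h4]))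
          · right
            rw [← hy]
            exact (hall _ ((hmem y _).mpr (by rw [h3])) _ ((hmem x _).mpr (by rw [h4]))).symm
        · exact Or.inr h1
      seen := h.seen }
  · push Not at hskip
    obtain ⟨hnc, hne1, hne2⟩ := hskip
    obtain ⟨D, p, hD, hs, hl, ha, hnew, hp, hext⟩ := P.accept (ι i) (ι j)
      (fun hcon => hij (hι hcon)) hne1 hne2 h.sat h.lam h.atom hnc
    have hrange : ∀ l, ∀ z ∈ P.cls P.n l, ∃ x : A.V, φ x = z := by
      intro l z hz
      rw [hcls, mem_clsOf] at hz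
      obtain ⟨x, hx, _⟩ := hz
      exact ⟨x, hx⟩
    obtain ⟨D', hD', hs', hl', hn', hx'⟩ := ih φ (P.ext _ _ _ _ hext) {
      inj := h.inj
      cls := by rw [Path.ext_cls]; exact h.cls
      sat := by rw [Path.ext_dem]; exact hs
      lam := by rw [Path.ext_dem]; exact hl
      atom := by rw [Path.ext_dem, Path.ext_cls]; exact ha
      sub := hsubA
      cov := by
        intro x z hz
        rw [Path.ext_cov]
        rcases h.cov x z hz with ⟨y, hy, hadj⟩ | h1
        · rcases (join_adj i j A x y).mp hadj with h2 | ⟨_, ⟨h3, h4⟩ | ⟨h3, h4⟩⟩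
          · exact Or.inl ⟨y, hy, h2⟩
          · right; right
            rw [← hy]
            exact ⟨ι i, ι j, Or.inl ⟨rfl, rfl⟩, (hmem x _).mpr (by rw [h3]),
              (hmem y _).mpr (by rw [h4])⟩
          · right; right
            rw [← hy]
            exact ⟨ι j, ι i, Or.inr ⟨rfl, rfl⟩, (hmem x _).mpr (by rw [h4]),
              (hmem y _).mpr (by rw [h3])⟩
        · exact Or.inr (Or.inl h1)
      seen := by
        intro x c hc
        rw [Path.ext_prov] at hc
        rw [Path.ext_dem]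
        rcases hp _ c hc with h1 | ⟨l, l', hJ, hxl, hD1⟩
        · obtain ⟨U, hU, hadj⟩ := h.seen x c h1
          exact ⟨U, hD hU, hadj⟩
        · refine ⟨_, hD1, ?_⟩
          intro z hz
          obtain ⟨y, rfl⟩ := hrange l' z hz
          apply h.sub x y
          rw [join_adj]
          rw [hmem] at hxl hz
          right
          rcases hJ with ⟨h1, h2⟩ | ⟨h1, h2⟩
          · rw [h1] at hxl
            rw [h2] at hz
            have e1 := hι hxl
            have e2 := hι hz
            refine ⟨?_, Or.inl ⟨e1, e2⟩⟩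
            rintro rfl
            exact hij (e1.symm.trans e2)
          · rw [h1] at hxl
            rw [h2] at hz
            have e1 := hι hxl
            have e2 := hι hz
            refine ⟨?_, Or.inr ⟨e2, e1⟩⟩
            rintro rfl
            exact hij (e2.symm.trans e1) }
    rw [Path.ext_dem] at hD' hn'
    refine ⟨D', hD.trans hD', hs', hl', ?_, hx'⟩
    intro q hq hq' z hz
    by_cases hq1 : q ∈ D
    · obtain ⟨l, _, h2⟩ := hnew q hq1 hq'
      rw [h2] at hz
      exact hrange l z hz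
    · exact hn' q hq hq1 z hz

/-- The process runs through every expression. -/
theorem run [Fintype V] (G : SimpleGraph V) (ι : Fin m → Fin 3) (hι : Function.Injective ι)
    {A : LabelledGraph m} (hA : A.Built) :
    ∀ (φ : A.V → V) (P : Path V k), Ctx G A ι φ P → Concl G A φ (P.dem P.n) := by
  induction hA with
  | single i => exact run_single G ι i
  | union A B _ _ ihA ihB => exact run_union G ι A B ihA ihB
  | relabel i j A _ ih => exact run_relabel G ι hι i j A ih
  | join i j hij A _ ih => exact run_join G ι hι i j hij A ih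

end Pool.Agent.Lib.MP_21a028_co
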