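import Mathlib

/-!
Demands `(c, U)`: some vertex of the set `U` has the colour `c`. Exchange arguments for rejected
demands.
-/

namespace Pool.Agent.Lib.MP_21a028_co

open Finset

variable {V : Type} {k : ℕ}

/-- The colouring `f` satisfies all demands of `D`. -/
def Sat (f : V → Fin k) (D : Set (Fin k × Finset V)) : Prop :=
  ∀ p ∈ D, ∃ x ∈ p.2, f x = p.1

lemma Sat.mono {f : V → Fin k} {D E : Set (Fin k × Finset V)} (h : Sat f E) (hDE : D ⊆ E) :
    Sat f D := fun p hp => h p (hDE hp)

/-- A rejected demand concerns a small set. -/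
lemma reject_card {D : Set (Fin k × Finset V)} {f : V → Fin k} (hf : Sat f D)
    (s : Finset V) (hatom : ∀ p ∈ D, s ⊆ p.2 ∨ Disjoint s p.2) (c : Fin k)
    (hrej : ¬ ∃ f' : V → Fin k, Sat f' (insert (c, s) D)) : s.card ≤ k := by
  classical
  by_contra hs
  push Not at hs
  apply hrej
  obtain ⟨x, hx, y, hy, hxy, hfxy⟩ := Finset.exists_ne_map_eq_of_card_lt_of_maps_to
    (s := s) (t := (univ : Finset (Fin k))) (by simpa using hs) (f := f)
    (fun _ _ => Finset.mem_univ _)
  refine ⟨Function.update f x c, ?_⟩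
  rintro p (rfl | hp)
  · exact ⟨x, hx, by simp⟩
  · obtain ⟨z, hz, hfz⟩ := hf p hp
    by_cases hzx : z = x
    · subst hzx
      rcases hatom p hp with h | h
      · refine ⟨y, h hy, ?_⟩
        rw [Function.update_of_ne (Ne.symm hxy), ← hfxy, hfz]
      · exact absurd hz (Finset.disjoint_left.mp h hx)
    · exact ⟨z, hz, by rw [Function.update_of_ne hzx, hfz]⟩

/-- Why a demand is rejected. -/
lemma reject_origin {D : Set (Fin k × Finset V)} {f : V → Fin k} (hf : Sat f D)
    (hlam : ∀ p ∈ D, ∀ q ∈ D, p.2 ⊆ q.2 ∨ q.2 ⊆ p.2 ∨ Disjoint p.2 q.2)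
    (s : Finset V) (y : V) (hy : y ∈ s) (hatom : ∀ p ∈ D, s ⊆ p.2 ∨ Disjoint s p.2) (c : Fin k)
    (hrej : ¬ ∃ f' : V → Fin k, Sat f' (insert (c, s) D)) :
    ∃ p ∈ D, s ⊆ p.2 ∧ p.1 = f y ∧ ∀ X : Finset V, (∀ q ∈ D, X ⊆ q.2 ∨ Disjoint X q.2) →
      Disjoint X s → X ⊆ p.2 → X.card ≤ k := by
  classical
  set K : Set (Fin k × Finset V) :=
    {p | p ∈ D ∧ p.1 = f y ∧ y ∈ p.2 ∧ ∀ z ∈ p.2, f z = f y → z = y} with hK
  have hne : K.Nonempty := by
    by_contra hemp
    rw [Set.not_nonempty_iff_eq_empty] at hemp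
    apply hrej
    refine ⟨Function.update f y c, ?_⟩
    rintro p (rfl | hp)
    · exact ⟨y, hy, by simp⟩
    · obtain ⟨z, hz, hfz⟩ := hf p hp
      by_cases hzy : z = y
      · subst hzy
        by_contra hcon
        push Not at hcon
        have : p ∈ K := by
          refine ⟨hp, hfz.symm, hz, ?_⟩
          intro z' hz' hfz'
          by_contra hne'
          apply hcon z' hz'
          rw [Function.update_of_ne hne', hfz', hfz]
        rw [hemp] at this
        exact this
      · exact ⟨z, hz, by rw [Function.update_of_ne hzy, hfz]⟩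
  obtain ⟨p, hpK, hpmin⟩ := WellFounded.has_min (measure fun p : Fin k × Finset V => p.2.card).wf
    K hne
  have hpmin' : ∀ q ∈ K, p.2 ⊆ q.2 := by
    intro q hq
    rcases hlam p hpK.1 q hq.1 with h | h | h
    · exact h
    · have h1 := hpmin q hq
      have h2 : ¬ q.2.card < p.2.card := h1
      rw [Finset.eq_of_subset_of_card_le h (by omega)]
    · exact absurd hq.2.2.1 (Finset.disjoint_left.mp h hpK.2.2.1)
  refine ⟨p, hpK.1, ?_, hpK.2.1, ?_⟩
  · rcases hatom p hpK.1 with h | h
    · exact h
    · exact absurd hpK.2.2.1 (Finset.disjoint_left.mp h hy)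
  · intro X hX hXs hXp
    by_contra hcard
    push Not at hcard
    apply hrej
    obtain ⟨x, hx, x', hx', hxx, hfx⟩ := Finset.exists_ne_map_eq_of_card_lt_of_maps_to
      (s := X) (t := (univ : Finset (Fin k))) (by simpa using hcard) (f := f)
      (fun _ _ => Finset.mem_univ _)
    have hxy : x ≠ y := fun h => Finset.disjoint_left.mp hXs hx (h ▸ hy)
    have hxy' : x' ≠ y := fun h => Finset.disjoint_left.mp hXs hx' (h ▸ hy)
    refine ⟨Function.update (Function.update f y c) x (f y), ?_⟩
    have ev : ∀ z, z ≠ x → z ≠ y → Function.update (Function.update f y c) x (f y) z = f z := by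
      intro z h1 h2
      rw [Function.update_of_ne h1, Function.update_of_ne h2]
    rintro q (rfl | hq)
    · exact ⟨y, hy, by rw [Function.update_of_ne hxy.symm, Function.update_self]⟩
    · obtain ⟨z, hz, hfz⟩ := hf q hq
      by_cases hzx : z = x
      · subst hzx
        rcases hX q hq with h | h
        · exact ⟨x', h hx', by rw [ev x' hxx.symm hxy', ← hfx, hfz]⟩
        · exact absurd hz (Finset.disjoint_left.mp h hx)
      · by_cases hzy : z = y
        · subst hzy
          by_cases huniq : ∀ z' ∈ q.2, f z' = f z → z' = z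
          · have hqK : q ∈ K := ⟨hq, hfz.symm, hz, huniq⟩
            exact ⟨x, hpmin' q hqK (hXp hx), by rw [Function.update_self, hfz]⟩
          · push Not at huniq
            obtain ⟨z', hz', hfz', hne'⟩ := huniq
            by_cases hz'x : z' = x
            · exact ⟨z', hz', by rw [hz'x, Function.update_self, hfz]⟩
            · exact ⟨z', hz', by rw [ev z' hz'x hne', hfz', hfz]⟩
        · exact ⟨z, hz, by rw [ev z hzx hzy, hfz]⟩

end Pool.Agent.Lib.MP_21a028_co
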