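import Pool.Agent.Lib.MP_21a028_co.Run
import Pool.Agent.Lib.MP_21a028_co.DomBounded

/-!
Graphs of clique-width at most `3` have large domatic number if their minimum degree is large.
-/

namespace Pool.Agent.Lib.MP_21a028_co

open Finset LabelledGraph

variable {V : Type} {k : ℕ}

/-- the history of length `0` -/
def Path.init (C : Fin 3 → Finset V) (h : ∀ i j, i ≠ j → Disjoint (C i) (C j)) : Path V k where
  n := 0
  cls := fun _ => C
  dem := fun _ => ∅
  prov := fun _ _ => ∅
  J := fun _ _ _ => False
  J_symm := fun _ _ _ h => h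
  J_ne := fun _ _ _ h => h.elim
  J_uniq := fun _ _ _ _ h => h.elim
  J_lt := fun _ _ _ h => h.elim
  J_nonempty := fun _ _ _ h => h.elim
  disj := fun _ _ => h
  par := fun _ _ i => ⟨i, subset_rfl⟩
  mono := fun _ _ _ _ _ => subset_rfl
  provCls := fun _ _ _ _ _ _ _ => rfl
  origin := fun _ _ _ hp => hp.elim
  big := fun _ _ _ h => h.elim
  rej := fun _ _ _ h => h.elim
  irr := fun _ _ _ _ _ _ _ _ _ h => h.elim

/-- A graph built with at most three labels: there is a colouring with `k` colours such that every
vertex with more than `bound k` neighbours sees all colours. -/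
theorem exists_colouring [Fintype V] (G : SimpleGraph V) (hG : CliqueWidthAtMost G 3) (hk : 0 < k) :
    ∃ f : V → Fin k, ∀ v, (∀ c, ∃ w, G.Adj v w ∧ f w = c) ∨
      ∀ N : Finset V, (∀ w ∈ N, G.Adj v w) → N.card ≤ Path.bound k := by
  classical
  obtain ⟨m, hm, A, hA, ⟨e⟩⟩ := hG
  have hι : Function.Injective (Fin.castLE hm) := Fin.castLE_injective hm
  have hφ : Function.Injective (fun x : A.V => (e x : V)) := e.injective
  obtain ⟨D, _, ⟨f, hf⟩, _, _, hx⟩ := run G (Fin.castLE hm) hι hA (fun x => e x)
    (Path.init (k := k) (clsOf A (Fin.castLE hm) fun x => e x) (clsOf_disj hφ)) {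
      inj := hφ
      cls := rfl
      sat := ⟨fun _ => ⟨0, hk⟩, fun p hp => hp.elim⟩
      lam := fun p hp => hp.elim
      atom := fun p hp => hp.elim
      sub := fun x y hxy => e.map_adj_iff.mpr hxy
      cov := by
        intro x z hz
        left
        refine ⟨e.symm z, e.apply_symm_apply z, ?_⟩
        rw [← e.map_adj_iff]
        rw [e.apply_symm_apply]
        exact hz
      seen := fun x c hc => absurd hc (Finset.notMem_empty c) }
  refine ⟨f, ?_⟩
  intro v
  obtain ⟨P, hv, hcov, hseen⟩ := hx (e.symm v)
  simp only [e.apply_symm_apply] at hv hcov hseen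
  by_cases hfin : P.prov P.n v = univ
  · left
    intro c
    obtain ⟨U, hU, hadj⟩ := hseen c (by rw [hfin]; exact mem_univ c)
    obtain ⟨w, hw, hfw⟩ := hf _ hU
    exact ⟨w, hadj w hw, hfw⟩
  · right
    intro N hN
    exact P.card_cov hv hfin N fun y hy => hcov y (hN y hy)

/-- the domatic number is at least `k` if there is a suitable colouring -/
lemma le_domaticNumber [Fintype V] [Nonempty V] (G : SimpleGraph V) (f : V → Fin k)
    (hf : ∀ i, IsDominating G (f ⁻¹' {i})) : k ≤ domaticNumber G := by
  classical
  apply le_csSup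
  · refine ⟨Fintype.card V, ?_⟩
    rintro j ⟨g, hg⟩
    have hsurj : Function.Surjective g := by
      intro i
      obtain ⟨v⟩ : Nonempty V := inferInstance
      rcases hg i v with h | ⟨w, hw, _⟩
      · exact ⟨v, h⟩
      · exact ⟨w, hw⟩
    simpa using Fintype.card_le_of_surjective g hsurj
  · exact ⟨f, hf⟩

lemma CliqueWidthAtMost.mono {G : SimpleGraph V} {s t : ℕ} (h : CliqueWidthAtMost G s)
    (hst : s ≤ t) : CliqueWidthAtMost G t := by
  obtain ⟨m, hm, rest⟩ := h
  exact ⟨m, hm.trans hst, rest⟩

theorem domBounded_of_le_three {t : ℕ} (ht : t ≤ 3) : DomBounded t := by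
  intro c
  refine ⟨Path.bound (c + 1) + 1, ?_⟩
  intro V _ G _ hG hd
  have hne : Nonempty V := by
    by_contra hcon
    rw [not_nonempty_iff] at hcon
    have : G.minDegree = 0 := by
      unfold SimpleGraph.minDegree
      simp
    omega
  obtain ⟨f, hf⟩ := exists_colouring (k := c + 1) G (hG.mono ht) (Nat.succ_pos c)
  have : c + 1 ≤ domaticNumber G := by
    apply le_domaticNumber G f
    intro i v
    right
    rcases hf v with h | h
    · obtain ⟨w, hw, hfw⟩ := h i
      exact ⟨w, hfw, hw⟩
    · exfalso
      have h1 := h (G.neighborFinset v) (fun w hw => (G.mem_neighborFinset v w).mp hw)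
      rw [SimpleGraph.card_neighborFinset_eq_degree] at h1
      have h2 := G.minDegree_le_degree v
      omega
  exact this

end Pool.Agent.Lib.MP_21a028_co
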