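import Pool.Agent.Lib.MP_21a028_co.Defs

/-!
Graphs of clique-width at most `4`, of large minimum degree and of domatic number at most `3`.
-/

namespace Pool.Agent.Lib.MP_21a028_co

open LabelledGraph

variable {k : ℕ}

/-- The vertex `v` has at least `n` neighbours. -/
def HasDeg (A : LabelledGraph k) (v : A.V) (n : ℕ) : Prop :=
  ∃ s : Finset A.V, s.card = n ∧ ∀ w ∈ s, A.graph.Adj v w

/-- At least `n` vertices have the label `i`. -/
def HasMany (A : LabelledGraph k) (i : Fin k) (n : ℕ) : Prop :=
  ∃ s : Finset A.V, s.card = n ∧ ∀ w ∈ s, A.label w = i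

/-- All vertices of label `2` see all colours. -/
def Dom2 (A : LabelledGraph 4) {m : ℕ} (f : A.V → Fin m) : Prop :=
  ∀ v, A.label v = 2 → ∀ z, f v = z ∨ ∃ w, A.graph.Adj v w ∧ f w = z

/-- Some vertex of label `1` has no neighbour of colour `x` or `y`. -/
def LeafAvoid (A : LabelledGraph 4) {m : ℕ} (f : A.V → Fin m) (x y : Fin m) : Prop :=
  ∃ u, A.label u = 1 ∧ ∀ w, A.graph.Adj u w → f w ≠ x ∧ f w ≠ y

/-- Invariant of a forest whose roots have label `0` and whose leaves have label `1`. -/
structure Forest (D j : ℕ) (A : LabelledGraph 4) : Prop where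
  fin : Finite A.V
  built : A.Built
  no3 : ∀ v, A.label v ≠ 3
  leaf : ∀ v, A.label v = 1 → HasDeg A v j
  inner : ∀ v, A.label v ≠ 1 → HasDeg A v D
  manyLeaves : HasMany A 1 D
  walk : ∀ (m : ℕ), 4 ≤ m → ∀ (f : A.V → Fin m), Dom2 A f → ∀ r, A.label r = 0 →
    ∀ x y, x ≠ y → f r ≠ x → f r ≠ y → LeafAvoid A f x y

/-- Invariant of a graph to which a root is about to be added. -/
structure PreTree (D j : ℕ) (A : LabelledGraph 4) : Prop where
  fin : Finite A.V
  built : A.Built
  no3 : ∀ v, A.label v ≠ 3
  no0 : ∀ v, A.label v ≠ 0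
  leaf : ∀ v, A.label v = 1 → HasDeg A v j
  inner : ∀ v, A.label v ≠ 1 → HasDeg A v D
  manyLeaves : HasMany A 1 D
  walk : ∀ (m : ℕ), 4 ≤ m → ∀ (f : A.V → Fin m), Dom2 A f →
    ∀ x y, x ≠ y → LeafAvoid A f x y

lemma exists_finset_sum {α β : Type} (s : Finset α) (t : Finset β) (P : α ⊕ β → Prop)
    (h1 : ∀ a ∈ s, P (Sum.inl a)) (h2 : ∀ b ∈ t, P (Sum.inr b)) (n : ℕ)
    (hn : s.card + t.card = n) :
    ∃ u : Finset (α ⊕ β), u.card = n ∧ ∀ w ∈ u, P w := by
  refine ⟨s.disjSum t, by simp [hn], ?_⟩
  intro w hw
  rw [Finset.mem_disjSum] at hw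
  rcases hw with ⟨a, ha, rfl⟩ | ⟨b, hb, rfl⟩
  · exact h1 a ha
  · exact h2 b hb

lemma exists_finset_inl {α β : Type} (s : Finset α) (P : α ⊕ β → Prop)
    (h1 : ∀ a ∈ s, P (Sum.inl a)) (n : ℕ) (hn : s.card = n) :
    ∃ u : Finset (α ⊕ β), u.card = n ∧ ∀ w ∈ u, P w :=
  exists_finset_sum s ∅ P h1 (by simp) n (by simpa using hn)

lemma exists_finset_inr {α β : Type} (s : Finset β) (P : α ⊕ β → Prop)
    (h1 : ∀ a ∈ s, P (Sum.inr a)) (n : ℕ) (hn : s.card = n) :
    ∃ u : Finset (α ⊕ β), u.card = n ∧ ∀ w ∈ u, P w :=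
  exists_finset_sum ∅ s P (by simp) h1 n (by simpa using hn)

lemma HasDeg.inl {A B : LabelledGraph k} {v : A.V} {n : ℕ} (h : HasDeg A v n) :
    HasDeg (union A B) (Sum.inl v) n := by
  obtain ⟨s, hs, h⟩ := h
  refine exists_finset_inl s _ ?_ _ hs
  intro a ha
  exact h a ha

lemma HasDeg.inr {A B : LabelledGraph k} {v : B.V} {n : ℕ} (h : HasDeg B v n) :
    HasDeg (union A B) (Sum.inr v) n := by
  obtain ⟨s, hs, h⟩ := h
  refine exists_finset_inr s _ ?_ _ hs
  intro a ha
  exact h a ha

lemma HasMany.inl {A B : LabelledGraph k} {i : Fin k} {n : ℕ} (h : HasMany A i n) :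
    HasMany (union A B) i n := by
  obtain ⟨s, hs, h⟩ := h
  refine exists_finset_inl s _ ?_ _ hs
  intro a ha
  exact h a ha

lemma HasMany.add {A B : LabelledGraph k} {i : Fin k} {n m : ℕ} (hA : HasMany A i n)
    (hB : HasMany B i m) : HasMany (union A B) i (n + m) := by
  obtain ⟨s, hs, h⟩ := hA
  obtain ⟨t, ht, h'⟩ := hB
  exact exists_finset_sum s t _ h h' _ (by rw [hs, ht])

lemma HasDeg.mono {A : LabelledGraph k} {v : A.V} {n m : ℕ} (h : HasDeg A v n) (hm : m ≤ n) :
    HasDeg A v m := by
  obtain ⟨s, hs, h⟩ := h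
  obtain ⟨t, ht, hts⟩ := Finset.exists_subset_card_eq (hm.trans hs.ge)
  exact ⟨t, hts, fun w hw => h w (ht hw)⟩

/-- The union of two forests. -/
lemma Forest.union {D j : ℕ} {A B : LabelledGraph 4} (hA : Forest D j A) (hB : Forest D j B) :
    Forest D j (union A B) where
  fin := by
    have := hA.fin; have := hB.fin
    exact inferInstanceAs (Finite (A.V ⊕ B.V))
  built := Built.union _ _ hA.built hB.built
  no3 := by
    rintro (v | v)
    · exact hA.no3 v
    · exact hB.no3 v
  leaf := by
    rintro (v | v) hv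
    · exact (hA.leaf v hv).inl
    · exact (hB.leaf v hv).inr
  inner := by
    rintro (v | v) hv
    · exact (hA.inner v hv).inl
    · exact (hB.inner v hv).inr
  manyLeaves := hA.manyLeaves.inl
  walk := by
    intro m hm f hf r hr x y hxy hx hy
    rcases r with r | r
    · have hf' : Dom2 A (fun v => f (Sum.inl v)) := by
        intro v hv z
        rcases hf (Sum.inl v) hv z with h | ⟨w, hw, hwz⟩
        · exact Or.inl h
        · rcases w with w | w
          · exact Or.inr ⟨w, hw, hwz⟩
          · exact absurd hw (by simp [LabelledGraph.union])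
      obtain ⟨u, hu, hu'⟩ := hA.walk m hm _ hf' r hr x y hxy hx hy
      refine ⟨Sum.inl u, hu, ?_⟩
      rintro (w | w) hw
      · exact hu' w hw
      · exact absurd hw (by simp [LabelledGraph.union])
    · have hf' : Dom2 B (fun v => f (Sum.inr v)) := by
        intro v hv z
        rcases hf (Sum.inr v) hv z with h | ⟨w, hw, hwz⟩
        · exact Or.inl h
        · rcases w with w | w
          · exact absurd hw (by simp [LabelledGraph.union])
          · exact Or.inr ⟨w, hw, hwz⟩
      obtain ⟨u, hu, hu'⟩ := hB.walk m hm _ hf' r hr x y hxy hx hy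
      refine ⟨Sum.inr u, hu, ?_⟩
      rintro (w | w) hw
      · exact absurd hw (by simp [LabelledGraph.union])
      · exact hu' w hw

/-- `n + 1` copies of a labelled graph. -/
def copies (A : LabelledGraph k) : ℕ → LabelledGraph k
  | 0 => A
  | n + 1 => union (copies A n) A

lemma Forest.copies {D j : ℕ} {A : LabelledGraph 4} (hA : Forest D j A) (n : ℕ) :
    Forest D j (copies A n) := by
  induction n with
  | zero => exact hA
  | succ n ih => exact ih.union hA

lemma hasMany_copies {A : LabelledGraph k} {i : Fin k} (hA : HasMany A i 1) (n : ℕ) :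
    HasMany (copies A n) i (n + 1) := by
  induction n with
  | zero => exact hA
  | succ n ih => exact ih.add hA

lemma built_copies {A : LabelledGraph k} (hA : A.Built) (n : ℕ) : (copies A n).Built := by
  induction n with
  | zero => exact hA
  | succ n ih => exact Built.union _ _ ih hA

lemma finite_copies {A : LabelledGraph k} (hA : Finite A.V) (n : ℕ) : Finite (copies A n).V := by
  induction n with
  | zero => exact hA
  | succ n ih =>
    have := hA
    have := ih
    exact inferInstanceAs (Finite ((Pool.Agent.Lib.MP_21a028_co.copies A n).V ⊕ A.V))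

lemma label_copies_single (i : Fin k) (n : ℕ) (v : (copies (single i) n).V) :
    (copies (single i) n).label v = i := by
  induction n with
  | zero => rfl
  | succ n ih =>
    rcases v with v | v
    · exact ih v
    · rfl

lemma adj_copies_single (i : Fin k) (n : ℕ) (v w : (copies (single i) n).V) :
    ¬ (copies (single i) n).graph.Adj v w := by
  induction n with
  | zero => intro h; exact h
  | succ n ih =>
    rcases v with v | v <;> rcases w with w | w
    · exact ih v w
    · simp [copies, LabelledGraph.union]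
    · simp [copies, LabelledGraph.union]
    · simp [copies, LabelledGraph.union, single]

lemma hasMany_single (i : Fin k) : HasMany (single i) i 1 :=
  ⟨({()} : Finset Unit), rfl, fun _ _ => rfl⟩

/-- The base of the construction: `D` isolated vertices of label `1`. -/
lemma preTree_base (D : ℕ) : PreTree (D + 1) 0 (copies (single 1) D) where
  fin := finite_copies (inferInstanceAs (Finite Unit)) D
  built := built_copies (Built.single 1) D
  no3 := by intro v; rw [label_copies_single]; decide
  no0 := by intro v; rw [label_copies_single]; decide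
  leaf := fun v _ => ⟨∅, rfl, by simp⟩
  inner := by intro v hv; rw [label_copies_single] at hv; exact absurd rfl hv
  manyLeaves := hasMany_copies (hasMany_single 1) D
  walk := by
    intro m hm f hf x y hxy
    obtain ⟨s, hs, h⟩ := hasMany_copies (hasMany_single (1 : Fin 4)) D
    obtain ⟨u, hu⟩ : s.Nonempty := by rw [← Finset.card_pos]; omega
    exact ⟨u, h u hu, fun w hw => absurd hw (adj_copies_single _ _ _ _)⟩

/-- Add a root (label `0`) adjacent to all leaves (label `1`). -/
def addRoot (A : LabelledGraph 4) : LabelledGraph 4 := join 0 1 (union A (single 0))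

/-- Add a vertex adjacent to all roots (label `0`); the roots and this vertex get label `2`. -/
def addCentre (A : LabelledGraph 4) : LabelledGraph 4 :=
  relabel 0 2 (relabel 3 2 (join 3 0 (union A (single 3))))

lemma join_adj (i j : Fin k) (A : LabelledGraph k) (u v : A.V) :
    (join i j A).graph.Adj u v ↔ A.graph.Adj u v ∨ (u ≠ v ∧
      ((A.label u = i ∧ A.label v = j) ∨ (A.label v = i ∧ A.label u = j))) := Iff.rfl

lemma addRoot_adj_inl_inl {A : LabelledGraph 4} (h0 : ∀ v, A.label v ≠ 0) (u v : A.V) :
    (addRoot A).graph.Adj (Sum.inl u) (Sum.inl v) ↔ A.graph.Adj u v := by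
  refine (join_adj 0 1 (union A (single 0)) (Sum.inl u) (Sum.inl v)).trans ?_
  constructor
  · rintro (h | ⟨_, h | h⟩)
    · exact h
    · exact absurd h.1 (h0 u)
    · exact absurd h.1 (h0 v)
  · intro h
    exact Or.inl h

lemma addRoot_adj_inl_inr {A : LabelledGraph 4} (u : A.V) (v : Unit) :
    (addRoot A).graph.Adj (Sum.inl u) (Sum.inr v) ↔ A.label u = 1 := by
  refine (join_adj 0 1 (union A (single 0)) (Sum.inl u) (Sum.inr v)).trans ?_
  constructor
  · rintro (h | ⟨_, h | h⟩)
    · exact absurd h (by simp [LabelledGraph.union])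
    · exact absurd h.2 (by change (0 : Fin 4) ≠ 1; decide)
    · exact h.2
  · intro h
    exact Or.inr ⟨Sum.inl_ne_inr, Or.inr ⟨rfl, h⟩⟩

lemma addRoot_adj_inr_inl {A : LabelledGraph 4} (u : A.V) (v : Unit) :
    (addRoot A).graph.Adj (Sum.inr v) (Sum.inl u) ↔ A.label u = 1 := by
  rw [SimpleGraph.adj_comm, addRoot_adj_inl_inr]

lemma PreTree.addRoot {D j : ℕ} {A : LabelledGraph 4} (hA : PreTree D j A) :
    Forest D (j + 1) (addRoot A) where
  fin := by
    have := hA.fin
    exact inferInstanceAs (Finite (A.V ⊕ Unit))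
  built := Built.join _ _ (by decide) _ (Built.union _ _ hA.built (Built.single 0))
  no3 := by
    rintro (v | v)
    · exact hA.no3 v
    · change (0 : Fin 4) ≠ 3
      decide
  leaf := by
    rintro (v | v) hv
    · obtain ⟨s, hs, h⟩ := hA.leaf v hv
      refine exists_finset_sum s ({()} : Finset Unit) _ ?_ ?_ _ (by simp [hs])
      · intro a ha
        exact (addRoot_adj_inl_inl hA.no0 _ _).2 (h a ha)
      · intro b _
        exact (addRoot_adj_inl_inr _ _).2 hv
    · exact absurd hv (by change (0 : Fin 4) ≠ 1; decide)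
  inner := by
    rintro (v | v) hv
    · obtain ⟨s, hs, h⟩ := hA.inner v hv
      refine exists_finset_inl s _ ?_ _ hs
      intro a ha
      exact (addRoot_adj_inl_inl hA.no0 _ _).2 (h a ha)
    · obtain ⟨s, hs, h⟩ := hA.manyLeaves
      refine exists_finset_inl s _ ?_ _ hs
      intro a ha
      exact (addRoot_adj_inr_inl _ _).2 (h a ha)
  manyLeaves := by
    obtain ⟨s, hs, h⟩ := hA.manyLeaves
    refine exists_finset_inl s _ ?_ _ hs
    intro a ha
    exact h a ha
  walk := by
    intro m hm f hf r hr x y hxy hx hy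
    rcases r with r | r
    · exact absurd hr (hA.no0 r)
    · have hf' : Dom2 A (fun v => f (Sum.inl v)) := by
        intro v hv z
        rcases hf (Sum.inl v) hv z with h | ⟨w, hw, hwz⟩
        · exact Or.inl h
        · rcases w with w | w
          · exact Or.inr ⟨w, (addRoot_adj_inl_inl hA.no0 _ _).1 hw, hwz⟩
          · have := (addRoot_adj_inl_inr _ _).1 hw
            rw [hv] at this
            exact absurd this (by decide)
      obtain ⟨u, hu, hu'⟩ := hA.walk m hm _ hf' x y hxy
      refine ⟨Sum.inl u, hu, ?_⟩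
      rintro (w | w) hw
      · exact hu' w ((addRoot_adj_inl_inl hA.no0 _ _).1 hw)
      · exact ⟨hx, hy⟩

lemma addCentre_adj_inl_inl {A : LabelledGraph 4} (h3 : ∀ v, A.label v ≠ 3) (u v : A.V) :
    (addCentre A).graph.Adj (Sum.inl u) (Sum.inl v) ↔ A.graph.Adj u v := by
  refine (join_adj 3 0 (union A (single 3)) (Sum.inl u) (Sum.inl v)).trans ?_
  constructor
  · rintro (h | ⟨_, h | h⟩)
    · exact h
    · exact absurd h.1 (h3 u)
    · exact absurd h.1 (h3 v)
  · intro h
    exact Or.inl h

lemma addCentre_adj_inl_inr {A : LabelledGraph 4} (u : A.V) (v : Unit) :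
    (addCentre A).graph.Adj (Sum.inl u) (Sum.inr v) ↔ A.label u = 0 := by
  refine (join_adj 3 0 (union A (single 3)) (Sum.inl u) (Sum.inr v)).trans ?_
  constructor
  · rintro (h | ⟨_, h | h⟩)
    · exact absurd h (by simp [LabelledGraph.union])
    · exact absurd h.2 (by change (3 : Fin 4) ≠ 0; decide)
    · exact h.2
  · intro h
    exact Or.inr ⟨Sum.inl_ne_inr, Or.inr ⟨rfl, h⟩⟩

lemma addCentre_label_inl {A : LabelledGraph 4} (h3 : ∀ v, A.label v ≠ 3) (u : A.V) :
    (addCentre A).label (Sum.inl u) = if A.label u = 0 then 2 else A.label u := by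
  change (if (if A.label u = 3 then (2 : Fin 4) else A.label u) = 0 then (2 : Fin 4)
    else (if A.label u = 3 then (2 : Fin 4) else A.label u)) = _
  rw [if_neg (h3 u)]

lemma addCentre_label_inr {A : LabelledGraph 4} (u : Unit) :
    (addCentre A).label (Sum.inr u) = 2 := by
  change (if (if (3 : Fin 4) = 3 then (2 : Fin 4) else 3) = 0 then (2 : Fin 4)
    else (if (3 : Fin 4) = 3 then (2 : Fin 4) else 3)) = _
  decide

lemma Forest.addCentre {D j : ℕ} {A : LabelledGraph 4} (hA : Forest D j A)
    (hroots : HasMany A 0 D) : PreTree D j (addCentre A) where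
  fin := by
    have := hA.fin
    exact inferInstanceAs (Finite (A.V ⊕ Unit))
  built := Built.relabel _ _ _ (Built.relabel _ _ _
    (Built.join _ _ (by decide) _ (Built.union _ _ hA.built (Built.single 3))))
  no3 := by
    rintro (v | v)
    · rw [addCentre_label_inl hA.no3]
      split_ifs
      · decide
      · exact hA.no3 v
    · rw [addCentre_label_inr]
      decide
  no0 := by
    rintro (v | v)
    · rw [addCentre_label_inl hA.no3]
      split_ifs with h
      · decide
      · exact h
    · rw [addCentre_label_inr]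
      decide
  leaf := by
    rintro (v | v) hv
    · rw [addCentre_label_inl hA.no3] at hv
      split_ifs at hv with h0
      · exact absurd hv (by decide)
      obtain ⟨s, hs, h⟩ := hA.leaf v hv
      refine exists_finset_inl s _ ?_ _ hs
      intro a ha
      exact (addCentre_adj_inl_inl hA.no3 _ _).2 (h a ha)
    · rw [addCentre_label_inr] at hv
      exact absurd hv (by decide)
  inner := by
    rintro (v | v) hv
    · have hv' : A.label v ≠ 1 := by
        intro h
        apply hv
        rw [addCentre_label_inl hA.no3, h]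
        rfl
      obtain ⟨s, hs, h⟩ := hA.inner v hv'
      refine exists_finset_inl s _ ?_ _ hs
      intro a ha
      exact (addCentre_adj_inl_inl hA.no3 _ _).2 (h a ha)
    · obtain ⟨s, hs, h⟩ := hroots
      refine exists_finset_inl s _ ?_ _ hs
      intro a ha
      exact ((addCentre_adj_inl_inr _ _).2 (h a ha)).symm
  manyLeaves := by
    obtain ⟨s, hs, h⟩ := hA.manyLeaves
    refine exists_finset_inl s _ ?_ _ hs
    intro a ha
    rw [addCentre_label_inl hA.no3, h a ha]
    rfl
  walk := by
    intro m hm f hf x y hxy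
    have hf' : Dom2 A (fun v => f (Sum.inl v)) := by
      intro v hv z
      have hv2 : (Pool.Agent.Lib.MP_21a028_co.addCentre A).label (Sum.inl v) = 2 := by
        rw [addCentre_label_inl hA.no3, hv]
        rfl
      rcases hf (Sum.inl v) hv2 z with h | ⟨w, hw, hwz⟩
      · exact Or.inl h
      · rcases w with w | w
        · exact Or.inr ⟨w, (addCentre_adj_inl_inl hA.no3 _ _).1 hw, hwz⟩
        · have := (addCentre_adj_inl_inr _ _).1 hw
          rw [hv] at this
          exact absurd this (by decide)
    obtain ⟨z, hz⟩ : ∃ z : Fin m, z ∉ ({x, y, f (Sum.inr ())} : Finset (Fin m)) := by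
      by_contra hcon
      push Not at hcon
      have h1 : (Finset.univ : Finset (Fin m)) ⊆ {x, y, f (Sum.inr ())} := fun z _ => hcon z
      have h2 := Finset.card_le_card h1
      have h3 := Finset.card_le_three (a := x) (b := y) (c := f (Sum.inr ()))
      simp only [Finset.card_univ, Fintype.card_fin] at h2
      omega
    simp only [Finset.mem_insert, Finset.mem_singleton, not_or] at hz
    rcases hf (Sum.inr ()) (addCentre_label_inr ()) z with h | ⟨w, hw, hwz⟩
    · exact absurd h.symm hz.2.2
    · rcases w with w | w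
      · have hw0 := (addCentre_adj_inl_inr _ _).1 hw.symm
        obtain ⟨u, hu, hu'⟩ := hA.walk m hm _ hf' w hw0 x y hxy
          (by rw [hwz]; exact hz.1) (by rw [hwz]; exact hz.2.1)
        refine ⟨Sum.inl u, ?_, ?_⟩
        · rw [addCentre_label_inl hA.no3, hu]
          rfl
        · rintro (w' | w') hw'
          · exact hu' w' ((addCentre_adj_inl_inl hA.no3 _ _).1 hw')
          · have := (addCentre_adj_inl_inr _ _).1 hw'
            rw [hu] at this
            exact absurd this (by decide)
      · exact absurd hw (SimpleGraph.irrefl _)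

lemma hasMany_addRoot (A : LabelledGraph 4) : HasMany (addRoot A) 0 1 :=
  exists_finset_inr (α := A.V) ({()} : Finset Unit) _ (fun _ _ => rfl) 1 rfl

/-- For every `j` there is a forest with leaves of degree at least `j + 1`, with a root. -/
lemma exists_forest (D j : ℕ) : ∃ A, Forest (D + 1) (j + 1) A ∧ HasMany A 0 1 := by
  induction j with
  | zero => exact ⟨_, (preTree_base D).addRoot, hasMany_addRoot _⟩
  | succ j ih =>
    obtain ⟨A, hA, hr⟩ := ih
    exact ⟨_, ((hA.copies D).addCentre (hasMany_copies hr D)).addRoot, hasMany_addRoot _⟩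

theorem exists_graph (D : ℕ) : ∃ A : LabelledGraph 4, A.Built ∧ Finite A.V ∧ Nonempty A.V ∧
    (∀ v, HasDeg A v (D + 1)) ∧
    ∀ m, 4 ≤ m → ∀ f : A.V → Fin m, ¬ ∀ i, IsDominating A.graph (f ⁻¹' {i}) := by
  obtain ⟨A, hA, ⟨s, hs, hs'⟩⟩ := exists_forest D D
  obtain ⟨r, hr⟩ : s.Nonempty := by rw [← Finset.card_pos]; omega
  refine ⟨A, hA.built, hA.fin, ⟨r⟩, ?_, ?_⟩
  · intro v
    by_cases hv : A.label v = 1
    · exact hA.leaf v hv
    · exact hA.inner v hv
  · intro m hm f hf
    have hdom : ∀ v z, f v = z ∨ ∃ w, A.graph.Adj v w ∧ f w = z := by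
      intro v z
      rcases hf z v with h | ⟨w, hw, hvw⟩
      · exact Or.inl h
      · exact Or.inr ⟨w, hvw, hw⟩
    obtain ⟨x, hx⟩ : ∃ z : Fin m, z ∉ ({f r} : Finset (Fin m)) := by
      by_contra hcon
      push Not at hcon
      have h1 : (Finset.univ : Finset (Fin m)) ⊆ {f r} := fun z _ => hcon z
      have h2 := Finset.card_le_card h1
      simp only [Finset.card_univ, Fintype.card_fin, Finset.card_singleton] at h2
      omega
    obtain ⟨y, hy⟩ : ∃ z : Fin m, z ∉ ({x, f r} : Finset (Fin m)) := by
      by_contra hcon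
      push Not at hcon
      have h1 : (Finset.univ : Finset (Fin m)) ⊆ {x, f r} := fun z _ => hcon z
      have h2 := Finset.card_le_card h1
      have h3 := Finset.card_le_two (a := x) (b := f r)
      simp only [Finset.card_univ, Fintype.card_fin] at h2
      omega
    simp only [Finset.mem_insert, Finset.mem_singleton, not_or] at hx hy
    obtain ⟨u, _, hu⟩ := hA.walk m hm f (fun v _ z => hdom v z) r (hs' r hr) x y
      (fun h => hy.1 h.symm) (fun h => hx h.symm) (fun h => hy.2 h.symm)
    have h1 : f u = x := by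
      rcases hdom u x with h | ⟨w, hw, h⟩
      · exact h
      · exact absurd h (hu w hw).1
    have h2 : f u = y := by
      rcases hdom u y with h | ⟨w, hw, h⟩
      · exact h
      · exact absurd h (hu w hw).2
    exact hy.1 (h2.symm.trans h1)

end Pool.Agent.Lib.MP_21a028_co
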